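import Pool.Agent.Work.MP_f2148a_nt.M56.Defs
import Pool.Agent.Work.MP_f2148a_nt.M56.G4.Rel

set_option autoImplicit false

/-!
# MP_f2148a_nt, block G3: the integral form of the flat derivation (all proved)

Coordinates: `d₁ = sτ/(3α)`, `d₂ = -2ωs/(3ατ) + tα/(3τ)`, `ξ = (X+ωY)/τ`, `υ = τY`.
`J432 = 78732 Δ³ J₄(d₁,d₂)`, and `81 Δ³ h = qI` is an integral form of bidegree `(1, 2)`.
-/

namespace Pool.Agent.Work.MP_f2148a_nt.M56.G3

open G4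

/-- `J432 (q4 x y α β s t)` over any commutative ring. -/
def jI {A : Type*} [CommRing A] (x y α β s t : A) : A :=
  72 * (3 * s) * (-18 * x * s + 6 * α * β * t) *
      (-9 * x ^ 2 * s + (6 * α * β * x + 12 * α ^ 2 * y) * t)
    + 9 * (6 * α ^ 2 * t) * (-18 * x * s + 6 * α * β * t) * (24 * y * s + 2 * β ^ 2 * t)
    - 27 * (3 * s) * (24 * y * s + 2 * β ^ 2 * t) ^ 2
    - 27 * (-9 * x ^ 2 * s + (6 * α * β * x + 12 * α ^ 2 * y) * t) * (6 * α ^ 2 * t) ^ 2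
    - 2 * (-18 * x * s + 6 * α * β * t) ^ 3

theorem J432_eq (x y α β s t : ℤ) : J432 (q4 x y α β s t) = jI x y α β s t := by
  simp only [J432, q4, jI]

/-- the coefficient of `X²` in `81 Δ³ h` -/
def qA {A : Type*} [CommRing A] (x y α β s t : A) : A :=
  12 * (9 * α ^ 2 * x ^ 2 + β ^ 2 * x + 6 * α * β * y) * s
    + α * (2 * β ^ 3 - 54 * α ^ 2 * β * x - 108 * α ^ 3 * y) * t

/-- the coefficient of `XY` in `81 Δ³ h` -/
def qB {A : Type*} [CommRing A] (x y α β s t : A) : A :=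
  24 * (6 * α * β * x ^ 2 + β ^ 2 * y + 9 * α ^ 2 * x * y) * s
    + (2 * β ^ 4 - 48 * α ^ 2 * β ^ 2 * x - 72 * α ^ 3 * β * y + 54 * α ^ 4 * x ^ 2) * t

/-- the coefficient of `Y²` in `81 Δ³ h` -/
def qC {A : Type*} [CommRing A] (x y α β s t : A) : A :=
  (-216 * α * β * x * y - 432 * α ^ 2 * y ^ 2 + 108 * α ^ 2 * x ^ 3 - 36 * β ^ 2 * x ^ 2) * s
    + (6 * α * β ^ 3 * x - 90 * α ^ 3 * β * x ^ 2 - 216 * α ^ 4 * x * y
      + 12 * α ^ 2 * β ^ 2 * y) * t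

/-- `81 Δ³ h` -/
def qI {A : Type*} [CommRing A] (x y α β s t X Y : A) : A :=
  qA x y α β s t * X ^ 2 + qB x y α β s t * X * Y + qC x y α β s t * Y ^ 2

/-- `h(d₁, d₂; ξ, υ)` -/
def h4 {A : Type*} [CommRing A] (l c x y z t : A) : A :=
  (c * y + 4 * l ^ 2 * x) * z ^ 2 + (2 * l ^ 2 * y - 2 * l * c * x) * z * t
    + (4 * l ^ 3 * x + 2 * l * c * y - c ^ 2 * x) * t ^ 2

section real

variable {x y α β ω τ Δ l c : ℝ} (hα : α ≠ 0) (hτ : τ ≠ 0) (hω : ω = β / (3 * α))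
  (hΔ : Δ = α * τ ^ 3) (hl : l * τ ^ 4 = x - ω ^ 2)
  (hc : c * τ ^ 6 = 2 * ω ^ 3 - 6 * x * ω - 4 * y)

include hα hτ hω hΔ hl hc

theorem J_eq (s t : ℝ) : jI x y α β s t =
    78732 * Δ ^ 3 * J4 l c (s * τ / (3 * α)) (-(2 * ω * s) / (3 * α * τ) + t * α / (3 * τ)) := by
  have hl' : l = (x - ω ^ 2) / τ ^ 4 := by
    rw [eq_div_iff (by positivity)]
    exact hl
  have hc' : c = (2 * ω ^ 3 - 6 * x * ω - 4 * y) / τ ^ 6 := by
    rw [eq_div_iff (by positivity)]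
    exact hc
  rw [hl', hc', hΔ, hω]
  unfold J4 jI
  field_simp
  ring

theorem h_eq (s t X Y : ℝ) : qI x y α β s t X Y =
    81 * Δ ^ 3 * h4 l c (s * τ / (3 * α)) (-(2 * ω * s) / (3 * α * τ) + t * α / (3 * τ))
      ((X + ω * Y) / τ) (τ * Y) := by
  have hl' : l = (x - ω ^ 2) / τ ^ 4 := by
    rw [eq_div_iff (by positivity)]
    exact hl
  have hc' : c = (2 * ω ^ 3 - 6 * x * ω - 4 * y) / τ ^ 6 := by
    rw [eq_div_iff (by positivity)]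
    exact hc
  rw [hl', hc', hΔ, hω]
  unfold h4 qI qA qB qC
  field_simp
  ring

end real

/-- The relations contained in `Dep`. -/
theorem of_dep {x y α β : ℤ} {ω τ Δ l c : ℝ} (hα : 1 ≤ α) (hτ : 0 < τ)
    (h : Dep (Z0 x y α β) ω τ Δ l c) :
    Δ = α * τ ^ 3 ∧ ω = (β : ℝ) / (3 * α) ∧ l * τ ^ 4 = x - ω ^ 2 ∧
      c * τ ^ 6 = 2 * ω ^ 3 - 6 * x * ω - 4 * y := by
  have hα0 : (0 : ℝ) < α := by exact_mod_cast hα
  obtain ⟨h1, h2, h3, h4⟩ := h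
  simp only [Z0] at h1 h2 h3 h4
  have e1 : Δ = α * τ ^ 3 := by
    rw [h1]
    field_simp
  have e2 : ω = (β : ℝ) / (3 * α) := by
    rw [h2, e1]
    field_simp
  have e3 : l * τ ^ 4 = x - ω ^ 2 := by
    push_cast at h3
    rw [e1] at h3
    have h5 : (3 : ℝ) * α * x = 3 * α * ω ^ 2 + 3 * α * (l * τ ^ 4) := by
      rw [h3]
      field_simp
    have h6 : (3 : ℝ) * α ≠ 0 := by positivity
    have h7 : (3 : ℝ) * α * (l * τ ^ 4) = 3 * α * (x - ω ^ 2) := by linarith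
    exact mul_left_cancel₀ h6 h7
  refine ⟨e1, e2, e3, ?_⟩
  push_cast at h4
  rw [e1] at h4
  have h5 : -(4 * (α : ℝ) * y + β * x) = α * ω ^ 3 + 3 * α * (l * τ ^ 4) * ω + α * (c * τ ^ 6) := by
    rw [h4]
    field_simp
  have h6 : (β : ℝ) = 3 * α * ω := by
    rw [e2]
    field_simp
  rw [e3, h6] at h5
  have h7 : (α : ℝ) * (c * τ ^ 6) = α * (2 * ω ^ 3 - 6 * x * ω - 4 * y) := by linarith
  exact mul_left_cancel₀ hα0.ne' h7

end Pool.Agent.Work.MP_f2148a_nt.M56.G3
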