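import Pool.Agent.Work.MP_f2148a_nt.M56.G3.Nabla

set_option autoImplicit false

/-!
# MP_f2148a_nt, block G3 (B1a), integral form (all proved)

`nab x y α β e f m n g s t u v : ℤ` is the value at `(s,t,u,v)` of the integral flat derivation in
the direction `(e, f)` of the form `g` of bidegree `(m, n)`. `nab_le`: at a point of the box on
`g = 0` it is at most
`8748 Δ³ |s f - t e| |d₂|^(m+1) |ξ|^n 2^m (4m+n) cost · nrm ρ g₀ g~`.
-/

namespace Pool.Agent.Work.MP_f2148a_nt.M56.G3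

open G4 LD MvPolynomial

/-- The value of the integral flat derivation of a form of bidegree `(m, n)`. -/
noncomputable def nab (x y α β e f : ℤ) (m n : ℕ) (g : Polynomial (Polynomial ℤ))
    (s t u v : ℤ) : ℤ :=
  eval ![s, t, u, v] (DI x y α β e f (fZ m n g))

theorem pa_ge {l c r : ℝ} (hl : |l| ≤ 1) (hc : |c| ≤ 1) (hr : |r| ≤ 1 / 5) :
    1 / 2 ≤ pa l c r := by
  have hr2 : r ^ 2 ≤ 1 / 25 := by
    have := abs_le.1 hr
    nlinarith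
  have hr3 : |r ^ 3| ≤ 1 / 125 := by
    rw [abs_pow]
    calc |r| ^ 3 ≤ (1 / 5) ^ 3 := pow_le_pow_left₀ (abs_nonneg _) hr 3
      _ = 1 / 125 := by norm_num
  have hr4 : |r ^ 4| ≤ 1 / 625 := by
    rw [abs_pow]
    calc |r| ^ 4 ≤ (1 / 5) ^ 4 := pow_le_pow_left₀ (abs_nonneg _) hr 4
      _ = 1 / 625 := by norm_num
  unfold pa
  have e1 : l * r ^ 2 ≤ 1 / 25 := by
    calc l * r ^ 2 ≤ |l| * r ^ 2 := mul_le_mul_of_nonneg_right (le_abs_self l) (sq_nonneg r)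
      _ ≤ 1 * (1 / 25) := mul_le_mul hl hr2 (sq_nonneg r) (by norm_num)
      _ = _ := by norm_num
  have e2 : c * r ^ 3 ≤ 1 / 125 := by
    calc c * r ^ 3 ≤ |c * r ^ 3| := le_abs_self _
      _ = |c| * |r ^ 3| := abs_mul _ _
      _ ≤ 1 * (1 / 125) := mul_le_mul hc hr3 (abs_nonneg _) (by norm_num)
      _ = _ := by norm_num
  have e3 : l ^ 2 * r ^ 4 ≤ 1 / 625 := by
    calc l ^ 2 * r ^ 4 ≤ |l ^ 2 * r ^ 4| := le_abs_self _
      _ = |l| ^ 2 * |r ^ 4| := by rw [abs_mul, abs_pow]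
      _ ≤ 1 ^ 2 * (1 / 625) := mul_le_mul (pow_le_pow_left₀ (abs_nonneg _) hl 2) hr4
          (abs_nonneg _) (by norm_num)
      _ = _ := by norm_num
  linarith

theorem cast_eval (s t u v : ℤ) (p : MvPolynomial (Fin 4) ℤ) :
    ((eval ![s, t, u, v] p : ℤ) : ℝ) =
      eval ![(s : ℝ), (t : ℝ), (u : ℝ), (v : ℝ)] (map (Int.castRingHom ℝ) p) := by
  induction p using MvPolynomial.induction_on with
  | C a => rw [eval_C, map_C, eval_C]; rfl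
  | add p q hp hq => rw [map_add, Int.cast_add, hp, hq, map_add, map_add]
  | mul_X p i hp =>
    rw [map_mul, Int.cast_mul, hp, map_mul, map_mul, map_X, eval_X, eval_X]
    congr 1
    fin_cases i <;> rfl

/-- Homogeneous evaluation over the integers and over the reals. -/
theorem ev_frame {α ω τ : ℝ} (hα : α ≠ 0) (hτ : τ ≠ 0) (m n : ℕ)
    (g : Polynomial (Polynomial ℤ)) (s t u v : ℤ) :
    LD.ev m n (rl (frm α ω τ) m n g) (s * τ / (3 * α))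
      (-(2 * ω * s) / (3 * α * τ) + t * α / (3 * τ)) ((u + ω * v) / τ) (τ * v) =
      ((LD.ev m n g s t u v : ℤ) : ℝ) := by
  rw [← eval_fZ, cast_eval, ← sub_fR (ω := ω) hα hτ, eval_sub, fR, ← aeval_eq_eval, ev_algHom]
  simp only [aeval_X]
  rfl

/-- (B1a) -/
theorem nab_le {x y α β : ℤ} {ω τ Δ l c ρ g₀ : ℝ} (hα : 1 ≤ α) (hτ : 0 < τ)
    (hD : Dep (Z0 x y α β) ω τ Δ l c) (hl : |l| ≤ 1) (hc : |c| ≤ 1) (hρ : 0 < ρ)
    (hρ1 : ρ ≤ 1 / 5) (hg : 0 ≤ g₀) (hg1 : g₀ ≤ 1) (m n : ℕ) (g : Polynomial (Polynomial ℤ))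
    (s t u v e f : ℤ) {d₁ d₂ ξ υ : ℝ} (hd1 : d₁ = s * τ / (3 * α))
    (hd2 : d₂ = -(2 * ω * s) / (3 * α * τ) + t * α / (3 * τ)) (hξ' : ξ = (u + ω * v) / τ)
    (hυ : υ = τ * v) (h2 : d₂ ≠ 0) (hξ : ξ ≠ 0) (hr : |υ / ξ| ≤ ρ)
    (hu : |d₁ / d₂ * pa l c (υ / ξ) + pb l c (υ / ξ)| ≤ g₀) (h0 : LD.ev m n g s t u v = 0) :
    |((nab x y α β e f m n g s t u v : ℤ) : ℝ)| ≤
      8748 * Δ ^ 3 * |((s * f - t * e : ℤ) : ℝ)| * (|d₂| ^ (m + 1) * |ξ| ^ n) *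
        (2 ^ m * (cost c ρ g₀ * (4 * m + n : ℕ) *
          nrm ρ g₀ (psi (U1 l c) (U2 l c) m n (rl (frm α ω τ) m n g)))) := by
  have hα0 : (0 : ℝ) < α := by exact_mod_cast hα
  obtain ⟨hΔ, hω, hl', hc'⟩ := of_dep hα hτ hD
  have hΔ0 : 0 < Δ := by rw [hΔ]; positivity
  have h3 := conj (x := x) (y := y) (β := β) hα0.ne' hτ.ne' hω hΔ hl' hc' e f
    (fR m n (rl (frm α ω τ) m n g))
  rw [sub_fR hα0.ne' hτ.ne'] at h3
  have hmap := map_DI (Int.castRingHom ℝ) x y α β e f (fZ m n g)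
  have h4 : ((nab x y α β e f m n g s t u v : ℤ) : ℝ) = 78732 * Δ ^ 3 *
      aeval ![d₁, d₂, ξ, υ] (V4 l c (e * τ / (3 * α))
        (-(2 * ω * e) / (3 * α * τ) + f * α / (3 * τ)) (fR m n (rl (frm α ω τ) m n g))) := by
    rw [nab, cast_eval, hmap]
    change eval _ (DI (x : ℝ) (y : ℝ) (α : ℝ) (β : ℝ) (e : ℝ) (f : ℝ) _) = _
    rw [h3, map_mul, eval_C, eval_sub, ← hd1, ← hd2, ← hξ', ← hυ, aeval_eq_eval]
  have h0' : LD.ev m n (rl (frm α ω τ) m n g) d₁ d₂ ξ υ = 0 := by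
    rw [hd1, hd2, hξ', hυ, ev_frame hα0.ne' hτ.ne', h0, Int.cast_zero]
  have h5 := V_small hl hc hρ hρ1 hg hg1 h2 hξ hr hu (pa_ge hl hc (hr.trans hρ1)) m n
    (rl (frm α ω τ) m n g) h0' (e * τ / (3 * α)) (-(2 * ω * e) / (3 * α * τ) + f * α / (3 * τ))
  have hbr : d₁ * (-(2 * ω * e) / (3 * α * τ) + f * α / (3 * τ)) - d₂ * (e * τ / (3 * α)) =
      ((s * f - t * e : ℤ) : ℝ) / 9 := by
    rw [hd1, hd2]
    push_cast
    field_simp
    ring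
  rw [hbr] at h5
  rw [h4, abs_mul, abs_of_pos (by positivity)]
  refine (mul_le_mul_of_nonneg_left h5 (by positivity)).trans (le_of_eq ?_)
  rw [abs_div, abs_of_pos (by norm_num : (0 : ℝ) < 9)]
  ring

end Pool.Agent.Work.MP_f2148a_nt.M56.G3
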