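import Pool.Agent.Work.MP_f2148a_nt.M56.G3.Flat
import Pool.Agent.Work.MP_f2148a_nt.M56.G3.B1a
import Pool.Agent.Work.MP_f2148a_nt.M56.G1.Main
import Pool.Agent.Work.MP_f2148a_nt.M56.LD.Ev

set_option autoImplicit false
set_option linter.unusedSimpArgs false

/-!
# MP_f2148a_nt, block G3 (B1b): the affine derivation and `nab` in the direction `(1, 0)` (all proved)
-/

namespace Pool.Agent.Work.MP_f2148a_nt.M56.G3

open Polynomial

section aff

variable {K : Type*} [Field K] (x y α β : K)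

/-- `D s` -/
noncomputable def Pp : K[X] := jI (C x) (C y) (C α) (C β) X 1

/-- `D y` -/
noncomputable def Bb : K[X][X] :=
  54 * qI (C (C x)) (C (C y)) (C (C α)) (C (C β)) (C X) 1 X 1

theorem dD_CC (a : K) : G1.dD (Pp x y α β) (Bb x y α β) (C (C a)) = 0 := by
  rw [G1.dD_apply, G1.dl_C, derivative_C, mul_zero, C_0]

theorem dD_CX : G1.dD (Pp x y α β) (Bb x y α β) (C X) =
    jI (C (C x)) (C (C y)) (C (C α)) (C (C β)) (C X) 1 := by
  rw [G1.dD_apply, G1.dl_C, derivative_X, mul_one, Pp, map_jI, map_one]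

theorem dD_X : G1.dD (Pp x y α β) (Bb x y α β) X =
    54 * qI (C (C x)) (C (C y)) (C (C α)) (C (C β)) (C X) 1 X 1 := by
  rw [G1.dD_apply, G1.dl, derivative_X, mul_one]
  have h : G1.dS (Pp x y α β) (X : K[X][X]) = 0 := by
    refine Polynomial.ext fun j => ?_
    rw [G1.coeff_dS, coeff_X]
    split_ifs <;> simp
  rw [h, zero_add, Bb]

/-- `H³` -/
noncomputable def Ph1 : K[X][X] := Hh (C (C x)) (C (C y)) (C (C α)) (C (C β)) (C X) 1 X 1 ^ 3

/-- `J F³` -/
noncomputable def Ph2 : K[X][X] := jI (C (C x)) (C (C y)) (C (C α)) (C (C β)) (C X) 1 *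
  Fq (C (C x)) (C (C y)) (C (C α)) (C (C β)) (C X) 1 X 1 ^ 3

/-- the common multiplier -/
noncomputable def Lm : K[X][X] := 2 * js (C (C x)) (C (C y)) (C (C α)) (C (C β)) (C X) +
  324 * qX (C (C x)) (C (C y)) (C (C α)) (C (C β)) (C X) 1 X 1

theorem flat1 : G1.dl (Pp x y α β) (Bb x y α β) (Ph1 x y α β) = Lm x y α β * Ph1 x y α β := by
  rw [← G1.dD_apply, Ph1, Derivation.leibniz_pow]
  have h := D_H (G1.dD (Pp x y α β) (Bb x y α β)) (dD_CC x y α β x) (dD_CC x y α β y)
    (dD_CC x y α β α) (dD_CC x y α β β) (dD_CX x y α β) (dD_X x y α β)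
  simp only [smul_eq_mul, nsmul_eq_mul, Nat.add_one_sub_one, Nat.reduceSub, Nat.cast_ofNat]
  unfold Lm
  linear_combination (Hh (C (C x)) (C (C y)) (C (C α)) (C (C β)) (C X) 1 X 1 ^ 2) * h

theorem flat2 : G1.dl (Pp x y α β) (Bb x y α β) (Ph2 x y α β) = Lm x y α β * Ph2 x y α β := by
  rw [← G1.dD_apply, Ph2, Derivation.leibniz, Derivation.leibniz_pow]
  have h := D_F (G1.dD (Pp x y α β) (Bb x y α β)) (dD_CC x y α β x) (dD_CC x y α β y)
    (dD_CC x y α β α) (dD_CC x y α β β) (dD_CX x y α β) (dD_X x y α β)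
  have h' := D_J (G1.dD (Pp x y α β) (Bb x y α β)) (dD_CC x y α β x) (dD_CC x y α β y)
    (dD_CC x y α β α) (dD_CC x y α β β) (dD_CX x y α β)
  simp only [smul_eq_mul, nsmul_eq_mul, Nat.add_one_sub_one, Nat.reduceSub, Nat.cast_ofNat]
  unfold Lm
  linear_combination (jI (C (C x)) (C (C y)) (C (C α)) (C (C β)) (C X) 1 *
    Fq (C (C x)) (C (C y)) (C (C α)) (C (C β)) (C X) 1 X 1 ^ 2) * h +
    (Fq (C (C x)) (C (C y)) (C (C α)) (C (C β)) (C X) 1 X 1 ^ 3) * h'

theorem evH_CC (s v a : K) : G1.evH s v (C (C a)) = a := by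
  rw [G1.evH_apply, G1.ev_C, eval_C]

theorem evH_CX (s v : K) : G1.evH s v (C X) = s := by
  rw [G1.evH_apply, G1.ev_C, eval_X]

theorem evH_X (s v : K) : G1.evH s v X = v := by
  rw [G1.evH_apply, G1.ev, map_X, eval_X]

theorem ev_Ph1 (s v : K) : G1.ev s v (Ph1 x y α β) = Hh x y α β s 1 v 1 ^ 3 := by
  rw [← G1.evH_apply, Ph1, map_pow]
  congr 1
  simp only [Hh, map_sub, map_add, map_neg, map_mul, map_pow, map_one, map_zero, map_ofNat,
    evH_CC, evH_CX, evH_X]

theorem ev_Ph2 (s v : K) : G1.ev s v (Ph2 x y α β) =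
    jI x y α β s 1 * Fq x y α β s 1 v 1 ^ 3 := by
  rw [← G1.evH_apply, Ph2, map_mul, map_pow, map_jI]
  simp only [Fq, map_sub, map_add, map_neg, map_mul, map_pow, map_one, map_zero, map_ofNat,
    evH_CC, evH_CX, evH_X]

theorem eval_Pp (s : K) : (Pp x y α β).eval s = jI x y α β s 1 := by
  rw [← coe_evalRingHom, Pp, map_jI]
  simp only [coe_evalRingHom, eval_C, eval_X, eval_one]

theorem ev_Bb (s v : K) : G1.ev s v (Bb x y α β) = 54 * qI x y α β s 1 v 1 := by
  rw [← G1.evH_apply, Bb]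
  simp only [qI, qA, qB, qC, map_sub, map_add, map_neg, map_mul, map_pow, map_one, map_zero,
    map_ofNat, evH_CC, evH_CX, evH_X]

end aff

section homog

variable {K : Type*} [Field K] (x y α β s t u v : K) (ht : t ≠ 0) (hv : v ≠ 0)

include ht in
theorem jI_hom : jI x y α β s t = t ^ 3 * jI x y α β (s / t) 1 := by
  unfold jI
  field_simp

include ht hv in
theorem Hh_hom : Hh x y α β s t u v = t ^ 2 * v ^ 4 * Hh x y α β (s / t) 1 (u / v) 1 := by
  unfold Hh
  field_simp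

include ht hv in
theorem Fq_hom : Fq x y α β s t u v = t * v ^ 4 * Fq x y α β (s / t) 1 (u / v) 1 := by
  unfold Fq
  field_simp

include ht hv in
theorem qI_hom : qI x y α β s t u v = t * v ^ 2 * qI x y α β (s / t) 1 (u / v) 1 := by
  unfold qI qA qB qC
  field_simp

include ht hv in
theorem qX_hom : qX x y α β s t u v = t * v * qX x y α β (s / t) 1 (u / v) 1 := by
  unfold qX qA qB
  field_simp

theorem q_euler : u * qX x y α β s t u v + v * qY x y α β s t u v = 2 * qI x y α β s t u v := by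
  unfold qX qY qI
  ring

end homog

theorem mono_id {K : Type*} [Field K] (J Q QX QY s t u v : K) (ht : t ≠ 0) (hv : v ≠ 0)
    (hQ : u * QX + v * QY = 2 * Q) (i k j l : ℕ) :
    (i : K) * s ^ (i - 1) * J * t ^ k * (u ^ j * v ^ l) +
      s ^ i * t ^ k * ((j : K) * u ^ (j - 1) * (27 * t * QY) * v ^ l +
        u ^ j * ((l : K) * v ^ (l - 1) * (-(27 * t * QX)))) =
    t ^ (i + k + 2) * v ^ (j + l) * ((J / t ^ 3) * ((i : K) * (s / t) ^ (i - 1)) * (u / v) ^ j +
      54 * (Q / (t * v ^ 2)) * (s / t) ^ i * ((j : K) * (u / v) ^ (j - 1)) -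
      27 * ((j : K) + l) * (QX / (t * v)) * (s / t) ^ i * (u / v) ^ j) := by
  have hY : QY = (2 * Q - u * QX) / v := by
    field_simp
    linear_combination hQ
  subst hY
  rcases i with _ | i <;> rcases j with _ | j <;> rcases l with _ | l <;>
    simp only [Nat.cast_zero, zero_mul, Nat.zero_sub, zero_add, add_zero, mul_zero, pow_zero,
      Nat.add_sub_cancel, one_mul, mul_one, Nat.cast_add, Nat.cast_one, sub_zero] <;>
    simp only [div_pow, pow_add, pow_one] <;> field_simp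
  all_goals ring_nf

end Pool.Agent.Work.MP_f2148a_nt.M56.G3
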