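import Pool.Agent.Work.MP_f2148a_nt.M56.G3.Link
import Pool.Agent.Work.MP_f2148a_nt.M56.H.Defs
import Pool.Agent.Work.MP_f2148a_nt.M56.LD.Main

set_option autoImplicit false

/-!
# MP_f2148a_nt, block G3: the data `LD.Dat` of a box (all proved)
-/

namespace Pool.Agent.Work.MP_f2148a_nt.M56.G3

open G4

/-- The quartic in the real frame. -/
theorem F_frame {x y α β ω τ Δ l c : ℝ} (hα : α ≠ 0) (hτ : τ ≠ 0) (hω : ω = β / (3 * α))
    (hΔ : Δ = α * τ ^ 3) (hl : l * τ ^ 4 = x - ω ^ 2)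
    (hc : c * τ ^ 6 = 2 * ω ^ 3 - 6 * x * ω - 4 * y) (s t X Y : ℝ) {d₁ d₂ ξ υ : ℝ}
    (hd1 : d₁ = s * τ / (3 * α)) (hd2 : d₂ = -(2 * ω * s) / (3 * α * τ) + t * α / (3 * τ))
    (hξ : ξ = (X + ω * Y) / τ) (hυ : υ = τ * Y) :
    Fq x y α β s t X Y = 9 * Δ *
      (d₁ * (ξ ^ 4 - 6 * l * ξ ^ 2 * υ ^ 2 - 2 * c * ξ * υ ^ 3 - 3 * l ^ 2 * υ ^ 4) +
        d₂ * (2 * ξ ^ 3 * υ - c * υ ^ 4)) := by
  have hl' : l = (x - ω ^ 2) / τ ^ 4 := by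
    rw [eq_div_iff (by positivity)]
    exact hl
  have hc' : c = (2 * ω ^ 3 - 6 * x * ω - 4 * y) / τ ^ 6 := by
    rw [eq_div_iff (by positivity)]
    exact hc
  rw [hl', hc', hΔ, hd1, hd2, hξ, hυ, hω]
  unfold Fq
  field_simp
  ring

theorem F_small {Δ l c d₁ d₂ ξ υ : ℝ} (hΔ : Δ ≠ 0) (h2 : d₂ ≠ 0) (hξ : ξ ≠ 0)
    (h : 9 * Δ * (d₁ * (ξ ^ 4 - 6 * l * ξ ^ 2 * υ ^ 2 - 2 * c * ξ * υ ^ 3 - 3 * l ^ 2 * υ ^ 4) +
        d₂ * (2 * ξ ^ 3 * υ - c * υ ^ 4)) = 3) :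
    d₁ / d₂ * pa l c (υ / ξ) + pb l c (υ / ξ) = 1 / (3 * Δ * d₂ * ξ ^ 4) := by
  have h1 : d₁ / d₂ * pa l c (υ / ξ) + pb l c (υ / ξ) =
      (9 * Δ * (d₁ * (ξ ^ 4 - 6 * l * ξ ^ 2 * υ ^ 2 - 2 * c * ξ * υ ^ 3 - 3 * l ^ 2 * υ ^ 4) +
        d₂ * (2 * ξ ^ 3 * υ - c * υ ^ 4))) / (9 * Δ * d₂ * ξ ^ 4) := by
    unfold pa pb
    field_simp
    ring
  rw [h1, h]
  field_simp
  norm_num

theorem nrm_X (i : Fin 2) : LD.nrm 1 1 (MvPolynomial.X i : LD.A) ≤ 1 := by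
  have h := LD.nrm_monomial 1 1 1 (Finsupp.single i 1)
  change LD.nrm 1 1 (MvPolynomial.monomial (Finsupp.single i 1) 1) ≤ 1
  rw [h]
  unfold LD.wt
  simp

private theorem nT (a : ℝ) (i : Fin 2) (k : ℕ) :
    LD.nrm 1 1 (MvPolynomial.C a * MvPolynomial.X i ^ k : LD.A) ≤ |a| := by
  refine (LD.nrm_mul zero_le_one zero_le_one _ _).trans ?_
  rw [LD.nrm_C]
  refine mul_le_of_le_one_right (abs_nonneg _) ?_
  refine (LD.nrm_pow zero_le_one zero_le_one _ _).trans ?_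
  exact pow_le_one₀ (LD.nrm_nonneg zero_le_one zero_le_one _) (nrm_X i)

private theorem dT (a : ℝ) (i : Fin 2) {k : ℕ} (hk : k ≤ 4) :
    (MvPolynomial.C a * MvPolynomial.X i ^ k : LD.A).totalDegree ≤ 4 := by
  refine (MvPolynomial.totalDegree_mul _ _).trans ?_
  rw [MvPolynomial.totalDegree_C, MvPolynomial.totalDegree_X_pow, zero_add]
  exact hk

private theorem U1_eq (l c : ℝ) : U1 l c = MvPolynomial.C 1 * MvPolynomial.X 1 ^ 1 +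
    (MvPolynomial.C (-2) * MvPolynomial.X 0 ^ 1 + MvPolynomial.C c * MvPolynomial.X 0 ^ 4) := by
  unfold U1 pb
  simp only [MvPolynomial.algebraMap_eq, map_neg, map_one, map_ofNat]
  ring

private theorem U2_eq (l c : ℝ) : U2 l c = MvPolynomial.C 1 * MvPolynomial.X 1 ^ 0 +
    (MvPolynomial.C (-6 * l) * MvPolynomial.X 0 ^ 2 +
      (MvPolynomial.C (-2 * c) * MvPolynomial.X 0 ^ 3 +
        MvPolynomial.C (-3 * l ^ 2) * MvPolynomial.X 0 ^ 4)) := by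
  unfold U2 pa
  simp only [MvPolynomial.algebraMap_eq, map_neg, map_one, map_mul, map_pow, map_ofNat]
  ring

theorem nrm_U1 {l c : ℝ} (hc : |c| ≤ 1) : LD.nrm 1 1 (U1 l c) ≤ 12 := by
  rw [U1_eq]
  refine (LD.nrm_add zero_le_one zero_le_one _ _).trans ?_
  have h1 := nT 1 1 1
  have h2 := nT (-2) 0 1
  have h3 := nT c 0 4
  have h4 := LD.nrm_add zero_le_one zero_le_one
    (MvPolynomial.C (-2) * MvPolynomial.X 0 ^ 1 : LD.A) (MvPolynomial.C c * MvPolynomial.X 0 ^ 4)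
  have a2 : |(-2 : ℝ)| = 2 := by norm_num
  rw [a2] at h2
  rw [abs_one] at h1
  linarith

theorem nrm_U2 {l c : ℝ} (hl : |l| ≤ 1) (hc : |c| ≤ 1) : LD.nrm 1 1 (U2 l c) ≤ 12 := by
  rw [U2_eq]
  have h1 := nT 1 1 0
  have h2 := nT (-6 * l) 0 2
  have h3 := nT (-2 * c) 0 3
  have h4 := nT (-3 * l ^ 2) 0 4
  rw [abs_mul] at h2 h3 h4
  rw [abs_pow] at h4
  have h5 : |l| ^ 2 ≤ 1 := pow_le_one₀ (abs_nonneg _) hl
  have e1 := LD.nrm_add zero_le_one zero_le_one (MvPolynomial.C 1 * MvPolynomial.X 1 ^ 0 : LD.A)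
    (MvPolynomial.C (-6 * l) * MvPolynomial.X 0 ^ 2 +
      (MvPolynomial.C (-2 * c) * MvPolynomial.X 0 ^ 3 +
        MvPolynomial.C (-3 * l ^ 2) * MvPolynomial.X 0 ^ 4))
  have e2 := LD.nrm_add zero_le_one zero_le_one
    (MvPolynomial.C (-6 * l) * MvPolynomial.X 0 ^ 2 : LD.A)
      (MvPolynomial.C (-2 * c) * MvPolynomial.X 0 ^ 3 +
        MvPolynomial.C (-3 * l ^ 2) * MvPolynomial.X 0 ^ 4)
  have e3 := LD.nrm_add zero_le_one zero_le_one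
    (MvPolynomial.C (-2 * c) * MvPolynomial.X 0 ^ 3 : LD.A)
      (MvPolynomial.C (-3 * l ^ 2) * MvPolynomial.X 0 ^ 4)
  have a6 : |(-6 : ℝ)| = 6 := by norm_num
  have a2 : |(-2 : ℝ)| = 2 := by norm_num
  have a3 : |(-3 : ℝ)| = 3 := by norm_num
  rw [a6] at h2
  rw [a2] at h3
  rw [a3] at h4
  rw [abs_one] at h1
  linarith

theorem deg_U1 (l c : ℝ) : (U1 l c).totalDegree ≤ 4 := by
  rw [U1_eq]
  refine (MvPolynomial.totalDegree_add _ _).trans (max_le (dT _ _ (by norm_num)) ?_)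
  exact (MvPolynomial.totalDegree_add _ _).trans (max_le (dT _ _ (by norm_num)) (dT _ _ le_rfl))

theorem deg_U2 (l c : ℝ) : (U2 l c).totalDegree ≤ 4 := by
  rw [U2_eq]
  refine (MvPolynomial.totalDegree_add _ _).trans (max_le (dT _ _ (by norm_num)) ?_)
  refine (MvPolynomial.totalDegree_add _ _).trans (max_le (dT _ _ (by norm_num)) ?_)
  exact (MvPolynomial.totalDegree_add _ _).trans (max_le (dT _ _ (by norm_num)) (dT _ _ le_rfl))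

theorem at2_U1 (l c r z : ℝ) : LD.at2 r z (U1 l c) = z - pb l c r := by
  rw [LD.at2, U1_eq]
  unfold pb
  simp only [map_add, map_mul, map_pow, MvPolynomial.eval_C, MvPolynomial.eval_X,
    Matrix.cons_val_zero, Matrix.cons_val_one]
  ring

theorem at2_U2 (l c r z : ℝ) : LD.at2 r z (U2 l c) = pa l c r := by
  rw [LD.at2, U2_eq]
  unfold pa
  simp only [map_add, map_mul, map_pow, MvPolynomial.eval_C, MvPolynomial.eval_X,
    Matrix.cons_val_zero, Matrix.cons_val_one]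
  ring

section box

variable {x y α β : ℤ} {ω τ Δ l c ρ S Q : ℝ}

/-- `d₂` of a point -/
noncomputable def dd (α ω τ : ℝ) (s t : ℤ) : ℝ := -(2 * ω * s) / (3 * α * τ) + t * α / (3 * τ)

/-- `ξ` of a point -/
noncomputable def xx (ω τ : ℝ) (u v : ℤ) : ℝ := ((u : ℝ) + ω * v) / τ

/-- `r` of a point -/
noncomputable def rr (ω τ : ℝ) (u v : ℤ) : ℝ := τ * v / xx ω τ u v

/-- `γ` of a point -/
noncomputable def zz (α ω τ Δ : ℝ) (s t u v : ℤ) : ℝ :=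
  1 / (3 * Δ * dd α ω τ s t * xx ω τ u v ^ 4)

theorem bx_facts (hR : H.Rf x y α β ω τ Δ l c) (hS : 0 < S) (hQ : 0 < Q) (hρ1 : ρ ≤ 1 / 5)
    {s t u v : ℤ} (hB : H.Bx x y α β ω τ ρ S Q s t u v) :
    0 < dd α ω τ s t ∧ dd α ω τ s t ≤ 10 * S ∧ xx ω τ u v ≠ 0 ∧ |xx ω τ u v| ≤ 2 * Q ∧
    |rr ω τ u v| ≤ ρ ∧ 1 / 2 ≤ pa l c (rr ω τ u v) ∧
    s * τ / (3 * α) / dd α ω τ s t * pa l c (rr ω τ u v) + pb l c (rr ω τ u v) =
      zz α ω τ Δ s t u v ∧ |zz α ω τ Δ s t u v| ≤ 10 / (3 * Δ * S * Q ^ 4) := by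
  obtain ⟨h1, h2, h3, h4, h5, h6, h7⟩ := hB
  obtain ⟨g1, g2, g3, g4, g5, g6, g7, g8⟩ := hR
  have hα0 : (0 : ℝ) < α := by exact_mod_cast g1
  obtain ⟨hΔ, hω, hl', hc'⟩ := of_dep g1 g3 g5
  have hΔ0 : 0 < Δ := by linarith
  have hd0 : 0 < dd α ω τ s t := by
    unfold dd
    linarith
  have hx0 : xx ω τ u v ≠ 0 := by
    intro h
    unfold xx at h
    rw [h, abs_zero] at h4
    linarith
  have hx1 : Q ≤ |xx ω τ u v| := h4
  have hr : |rr ω τ u v| ≤ ρ := by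
    unfold rr
    rw [abs_div, div_le_iff₀ (abs_pos.2 hx0)]
    exact h3
  rw [Fq_eq] at h1
  have h8 : Fq (x : ℝ) y α β s t u v = 3 := by
    have h9 : ((Fq x y α β s t u v : ℤ) : ℝ) = 3 := by
      rw [h1]
      norm_num
    rw [← h9]
    unfold Fq
    push_cast
    ring
  rw [F_frame hα0.ne' g3.ne' hω hΔ hl' hc' s t u v (d₁ := s * τ / (3 * α))
    (d₂ := dd α ω τ s t) (ξ := xx ω τ u v) (υ := τ * v) rfl rfl rfl rfl] at h8
  have h9 := F_small hΔ0.ne' hd0.ne' hx0 h8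
  refine ⟨hd0, h7, hx0, h5, hr, pa_ge g6 g7 (hr.trans hρ1), h9, ?_⟩
  unfold zz
  rw [abs_div, abs_one, abs_mul, abs_mul, abs_mul, abs_of_pos hΔ0, abs_of_pos hd0, abs_pow]
  have e3 : |(3 : ℝ)| = 3 := by norm_num
  rw [e3, div_le_div_iff₀ (by positivity) (by positivity), one_mul]
  have h10 : Q ^ 4 ≤ |xx ω τ u v| ^ 4 := pow_le_pow_left₀ hQ.le hx1 4
  have h11 : S ≤ 10 * dd α ω τ s t := by
    unfold dd
    linarith
  calc 3 * Δ * S * Q ^ 4 ≤ 3 * Δ * (10 * dd α ω τ s t) * |xx ω τ u v| ^ 4 := by gcongr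
    _ = 10 * (3 * Δ * dd α ω τ s t * |xx ω τ u v| ^ 4) := by ring

/-- The data of the layered determinants. -/
theorem dat (hR : H.Rf x y α β ω τ Δ l c) (hS : 0 < S) (hQ : 0 < Q) (hρ : 0 < ρ)
    (hρ1 : ρ ≤ 1 / 5) {ι : Type} (P : LD.Pts ι)
    (hB : ∀ i, H.Bx x y α β ω τ ρ S Q (P.s i) (P.t i) (P.u i) (P.v i)) {B γ κ₀ θ₀ : ℝ}
    (hB12 : 12 ≤ B) (hγ : 10 / (3 * Δ * S * Q ^ 4) ≤ γ) (hγ1 : γ ≤ 1) (hκ : 20 * S ≤ κ₀)
    (hθ : 2 * Q ≤ θ₀) :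
    LD.Dat (frm α ω τ) P (U1 l c) (U2 l c) B 4 ρ γ κ₀ θ₀
      (fun i => dd α ω τ (P.s i) (P.t i) / pa l c (rr ω τ (P.u i) (P.v i)))
      (fun i => xx ω τ (P.u i) (P.v i)) (fun i => rr ω τ (P.u i) (P.v i))
      (fun i => zz α ω τ Δ (P.s i) (P.t i) (P.u i) (P.v i)) := by
  have hα0 : (0 : ℝ) < α := by exact_mod_cast hR.hα
  have hτ := hR.hτ
  have hΔ0 : 0 < Δ := by linarith [hR.hΔ]
  have hf := fun i => bx_facts hR hS hQ hρ1 (hB i)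
  refine ⟨frm_uni hα0.ne' hτ.ne', (nrm_U1 hR.hc).trans hB12, (nrm_U2 hR.hl hR.hc).trans hB12,
    deg_U1 l c, deg_U2 l c, hρ, by linarith, lt_of_lt_of_le (by positivity) hγ, hγ1,
    fun i => ?_, fun i => (hf i).2.2.2.1.trans hθ, fun i => (hf i).2.2.2.2.1,
    fun i => (hf i).2.2.2.2.2.2.2.trans hγ, fun i => ?_, fun i => ?_, fun i => ?_, fun i => ?_⟩
  · obtain ⟨h1, h2, _, _, _, h3, _⟩ := hf i
    rw [abs_div, abs_of_pos h1, abs_of_pos (by linarith), div_le_iff₀ (by linarith)]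
    nlinarith
  · obtain ⟨h1, h2, _, _, _, h3, h4, _⟩ := hf i
    have h5 : pa l c (rr ω τ (P.u i) (P.v i)) ≠ 0 := by linarith
    rw [at2_U1, ← h4, add_sub_cancel_right]
    change _ = 3 * α / τ * _
    field_simp
  · obtain ⟨h1, h2, _, _, _, h3, h4, _⟩ := hf i
    have h5 : pa l c (rr ω τ (P.u i) (P.v i)) ≠ 0 := by linarith
    rw [at2_U1, at2_U2, ← h4, add_sub_cancel_right]
    have e1 : dd α ω τ (P.s i) (P.t i) / pa l c (rr ω τ (P.u i) (P.v i)) *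
        (P.s i * τ / (3 * α) / dd α ω τ (P.s i) (P.t i) * pa l c (rr ω τ (P.u i) (P.v i))) =
        P.s i * τ / (3 * α) := by
      field_simp
    have e2 : dd α ω τ (P.s i) (P.t i) / pa l c (rr ω τ (P.u i) (P.v i)) *
        pa l c (rr ω τ (P.u i) (P.v i)) = dd α ω τ (P.s i) (P.t i) := by
      field_simp
    rw [e1, e2]
    change _ = 6 * ω / (α * τ) * _ + 3 * τ / α * _
    unfold dd
    field_simp
    ring
  · obtain ⟨_, _, h3, _⟩ := hf i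
    change _ = τ * _ + -ω / τ * _
    unfold rr
    rw [mul_div_cancel₀ _ h3]
    unfold xx
    field_simp
    ring
  · obtain ⟨_, _, h3, _⟩ := hf i
    change _ = 1 / τ * _
    unfold rr
    rw [mul_div_cancel₀ _ h3]
    field_simp

end box

end Pool.Agent.Work.MP_f2148a_nt.M56.G3
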