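import Pool.Agent.Work.MP_f2148a_nt.M56.G3.Coord

set_option autoImplicit false
set_option linter.unusedSimpArgs false

/-!
# MP_f2148a_nt, block G3: the integral derivation and the change of coordinates (all proved)

`DI x y α β e f` is the derivation `s ↦ J e, t ↦ J f, X ↦ -27 (s f - t e) q_Y, Y ↦ 27 (s f - t e) q_X`
of `R[s, t, X, Y]`, `J = jI(s,t)`, `q = qI(s,t,X,Y)`. In the real coordinates `(d₁,d₂,ξ,υ)` it is
`78732 Δ³ V4` (`conj_iter`), and over `ℤ` its values at integral points are integers (`int_row`).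
-/

namespace Pool.Agent.Work.MP_f2148a_nt.M56.G3

open G4 MvPolynomial

section def_

variable {R : Type*} [CommRing R]

/-- `∂q/∂X` -/
def qX {A : Type*} [CommRing A] (x y α β s t X Y : A) : A :=
  2 * qA x y α β s t * X + qB x y α β s t * Y

/-- `∂q/∂Y` -/
def qY {A : Type*} [CommRing A] (x y α β s t X Y : A) : A :=
  qB x y α β s t * X + 2 * qC x y α β s t * Y

/-- The integral flat derivation. -/
noncomputable def DI (x y α β e f : R) :
    Derivation R (MvPolynomial (Fin 4) R) (MvPolynomial (Fin 4) R) :=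
  mkDerivation R ![jI (C x) (C y) (C α) (C β) (X 0) (X 1) * C e,
    jI (C x) (C y) (C α) (C β) (X 0) (X 1) * C f,
    -(27 * (X 0 * C f - X 1 * C e) * qY (C x) (C y) (C α) (C β) (X 0) (X 1) (X 2) (X 3)),
    27 * (X 0 * C f - X 1 * C e) * qX (C x) (C y) (C α) (C β) (X 0) (X 1) (X 2) (X 3)]

variable (x y α β e f : R)

theorem DI_zero : DI x y α β e f (X 0) =
    jI (C x) (C y) (C α) (C β) (X 0) (X 1) * C e := by
  rw [DI, mkDerivation_X]
  rfl

theorem DI_one : DI x y α β e f (X 1) =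
    jI (C x) (C y) (C α) (C β) (X 0) (X 1) * C f := by
  rw [DI, mkDerivation_X]
  rfl

theorem DI_two : DI x y α β e f (X 2) =
    -(27 * (X 0 * C f - X 1 * C e) *
      qY (C x) (C y) (C α) (C β) (X 0) (X 1) (X 2) (X 3)) := by
  rw [DI, mkDerivation_X]
  rfl

theorem DI_three : DI x y α β e f (X 3) =
    27 * (X 0 * C f - X 1 * C e) *
      qX (C x) (C y) (C α) (C β) (X 0) (X 1) (X 2) (X 3) := by
  rw [DI, mkDerivation_X]
  rfl

end def_

section mapping

variable {A B : Type*} [CommRing A] [CommRing B] (φ : A →+* B)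

theorem map_jI (x y α β s t : A) :
    φ (jI x y α β s t) = jI (φ x) (φ y) (φ α) (φ β) (φ s) (φ t) := by
  simp only [jI, map_sub, map_add, map_neg, map_mul, map_pow, map_one, map_zero, map_ofNat]

theorem map_qX (x y α β s t X Y : A) :
    φ (qX x y α β s t X Y) = qX (φ x) (φ y) (φ α) (φ β) (φ s) (φ t) (φ X) (φ Y) := by
  simp only [qX, qA, qB, map_sub, map_add, map_neg, map_mul, map_pow, map_one, map_zero,
    map_ofNat]

theorem map_qY (x y α β s t X Y : A) :
    φ (qY x y α β s t X Y) = qY (φ x) (φ y) (φ α) (φ β) (φ s) (φ t) (φ X) (φ Y) := by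
  simp only [qY, qB, qC, map_sub, map_add, map_neg, map_mul, map_pow, map_one, map_zero,
    map_ofNat]

/-- base change of `DI` -/
theorem map_DI (x y α β e f : A) (p : MvPolynomial (Fin 4) A) :
    map φ (DI x y α β e f p) = DI (φ x) (φ y) (φ α) (φ β) (φ e) (φ f) (map φ p) := by
  induction p using MvPolynomial.induction_on with
  | C a =>
    rw [map_C, derivation_C, derivation_C, map_zero]
  | add p q hp hq => rw [map_add, map_add, map_add, map_add, hp, hq]
  | mul_X p i hp =>
    have hi : map φ (DI x y α β e f (X i)) =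
        DI (φ x) (φ y) (φ α) (φ β) (φ e) (φ f) (X i) := by
      fin_cases i
      · change map φ (DI x y α β e f (X 0)) = DI (φ x) (φ y) (φ α) (φ β) (φ e) (φ f) (X 0)
        rw [DI_zero, DI_zero, map_mul, map_jI]
        simp only [map_C, map_X]
      · change map φ (DI x y α β e f (X 1)) = DI (φ x) (φ y) (φ α) (φ β) (φ e) (φ f) (X 1)
        rw [DI_one, DI_one, map_mul, map_jI]
        simp only [map_C, map_X]
      · change map φ (DI x y α β e f (X 2)) = DI (φ x) (φ y) (φ α) (φ β) (φ e) (φ f) (X 2)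
        rw [DI_two, DI_two, map_neg, map_mul, map_mul, map_qY]
        simp only [map_C, map_X, map_sub, map_mul, map_ofNat]
      · change map φ (DI x y α β e f (X 3)) = DI (φ x) (φ y) (φ α) (φ β) (φ e) (φ f) (X 3)
        rw [DI_three, DI_three, map_mul, map_mul, map_qX]
        simp only [map_C, map_X, map_sub, map_mul, map_ofNat]
    have e1 : DI x y α β e f (p * X i) = p * DI x y α β e f (X i) + X i * DI x y α β e f p := by
      rw [Derivation.leibniz, smul_eq_mul, smul_eq_mul]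
    have e2 : map φ (p * X i) = map φ p * X i := by rw [map_mul, map_X]
    rw [e1, e2, Derivation.leibniz, smul_eq_mul, smul_eq_mul, map_add, map_mul, map_mul, map_X,
      hp, hi]

theorem map_DI_iter (x y α β e f : A) (i : ℕ) (p : MvPolynomial (Fin 4) A) :
    map φ ((fun z => DI x y α β e f z)^[i] p) =
      (fun z => DI (φ x) (φ y) (φ α) (φ β) (φ e) (φ f) z)^[i] (map φ p) := by
  induction i generalizing p with
  | zero => rfl
  | succ i ih =>
    rw [Function.iterate_succ_apply, Function.iterate_succ_apply, ih, map_DI]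

end mapping

/-- The substitution `(d₁, d₂, ξ, υ) ↦` linear forms in `(s, t, X, Y)`. -/
noncomputable def sub (α ω τ : ℝ) : MvPolynomial (Fin 4) ℝ →ₐ[ℝ] MvPolynomial (Fin 4) ℝ :=
  aeval ![C (τ / (3 * α)) * X 0, C (-(2 * ω) / (3 * α * τ)) * X 0 + C (α / (3 * τ)) * X 1,
    C (1 / τ) * X 2 + C (ω / τ) * X 3, C τ * X 3]

theorem sub_zero' (α ω τ : ℝ) : sub α ω τ (X 0) = C (τ / (3 * α)) * X 0 := by
  rw [sub, aeval_X]
  rfl

theorem sub_one' (α ω τ : ℝ) : sub α ω τ (X 1) =
    C (-(2 * ω) / (3 * α * τ)) * X 0 + C (α / (3 * τ)) * X 1 := by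
  rw [sub, aeval_X]
  rfl

theorem sub_two' (α ω τ : ℝ) : sub α ω τ (X 2) = C (1 / τ) * X 2 + C (ω / τ) * X 3 := by
  rw [sub, aeval_X]
  rfl

theorem sub_three' (α ω τ : ℝ) : sub α ω τ (X 3) = C τ * X 3 := by
  rw [sub, aeval_X]
  rfl

/-- Evaluation of the substituted polynomial. -/
theorem eval_sub (α ω τ s t X' Y' : ℝ) (p : MvPolynomial (Fin 4) ℝ) :
    eval ![s, t, X', Y'] (sub α ω τ p) =
      eval ![s * τ / (3 * α), -(2 * ω * s) / (3 * α * τ) + t * α / (3 * τ),
        (X' + ω * Y') / τ, τ * Y'] p := by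
  induction p using MvPolynomial.induction_on with
  | C a => rw [← algebraMap_eq, AlgHom.commutes, algebraMap_eq, eval_C, eval_C]
  | add p q hp hq => rw [map_add, map_add, map_add, hp, hq]
  | mul_X p i hp =>
    rw [map_mul, map_mul, map_mul, hp, eval_X]
    congr 1
    fin_cases i
    · change eval ![s, t, X', Y'] (sub α ω τ (X 0)) = s * τ / (3 * α)
      rw [sub_zero', map_mul, eval_C, eval_X]
      change τ / (3 * α) * s = _
      ring
    · change eval ![s, t, X', Y'] (sub α ω τ (X 1)) =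
        -(2 * ω * s) / (3 * α * τ) + t * α / (3 * τ)
      rw [sub_one', map_add, map_mul, map_mul, eval_C, eval_C, eval_X, eval_X]
      change -(2 * ω) / (3 * α * τ) * s + α / (3 * τ) * t = _
      ring
    · change eval ![s, t, X', Y'] (sub α ω τ (X 2)) = (X' + ω * Y') / τ
      rw [sub_two', map_add, map_mul, map_mul, eval_C, eval_C, eval_X, eval_X]
      change 1 / τ * X' + ω / τ * Y' = _
      ring
    · change eval ![s, t, X', Y'] (sub α ω τ (X 3)) = τ * Y'
      rw [sub_three', map_mul, eval_C, eval_X]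
      rfl

private theorem funext4 {p q : MvPolynomial (Fin 4) ℝ}
    (h : ∀ s t X Y : ℝ, eval ![s, t, X, Y] p = eval ![s, t, X, Y] q) : p = q := by
  refine MvPolynomial.funext fun z => ?_
  have h1 : z = ![z 0, z 1, z 2, z 3] := by
    funext i
    fin_cases i <;> rfl
  rw [h1]
  exact h _ _ _ _

private theorem ev_C (z : Fin 4 → ℝ) (a : ℝ) :
    eval z (algebraMap ℝ (MvPolynomial (Fin 4) ℝ) a) = a := by
  rw [algebraMap_eq, eval_C]

section conj

variable {x y α β ω τ Δ l c : ℝ} (hα : α ≠ 0) (hτ : τ ≠ 0) (hω : ω = β / (3 * α))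
  (hΔ : Δ = α * τ ^ 3) (hl : l * τ ^ 4 = x - ω ^ 2)
  (hc : c * τ ^ 6 = 2 * ω ^ 3 - 6 * x * ω - 4 * y)

include hα hτ hω hΔ hl hc

theorem hY_eq (s t X Y : ℝ) : qY x y α β s t X Y = 81 * Δ ^ 3 *
    (ω / τ * hX l c (s * τ / (3 * α)) (-(2 * ω * s) / (3 * α * τ) + t * α / (3 * τ))
      ((X + ω * Y) / τ) (τ * Y) +
    τ * hY l c (s * τ / (3 * α)) (-(2 * ω * s) / (3 * α * τ) + t * α / (3 * τ))
      ((X + ω * Y) / τ) (τ * Y)) := by
  have hl' : l = (x - ω ^ 2) / τ ^ 4 := by
    rw [eq_div_iff (by positivity)]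
    exact hl
  have hc' : c = (2 * ω ^ 3 - 6 * x * ω - 4 * y) / τ ^ 6 := by
    rw [eq_div_iff (by positivity)]
    exact hc
  rw [hl', hc', hΔ, hω]
  unfold hX hY qY qB qC
  field_simp
  ring

theorem hX_eq (s t X Y : ℝ) : qX x y α β s t X Y = 81 * Δ ^ 3 *
    (1 / τ * hX l c (s * τ / (3 * α)) (-(2 * ω * s) / (3 * α * τ) + t * α / (3 * τ))
      ((X + ω * Y) / τ) (τ * Y)) := by
  have hl' : l = (x - ω ^ 2) / τ ^ 4 := by
    rw [eq_div_iff (by positivity)]
    exact hl
  have hc' : c = (2 * ω ^ 3 - 6 * x * ω - 4 * y) / τ ^ 6 := by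
    rw [eq_div_iff (by positivity)]
    exact hc
  rw [hl', hc', hΔ, hω]
  unfold hX qX qA qB
  field_simp
  ring

/-- `DI = 78732 Δ³ V4` in the real coordinates. -/
theorem conj (e f : ℝ) (p : MvPolynomial (Fin 4) ℝ) :
    DI x y α β e f (sub α ω τ p) = C (78732 * Δ ^ 3) * sub α ω τ
      (V4 l c (e * τ / (3 * α)) (-(2 * ω * e) / (3 * α * τ) + f * α / (3 * τ)) p) := by
  have hJ : ∀ s t : ℝ, jI x y α β s t = 78732 * Δ ^ 3 * J4 l c (s * τ / (3 * α))
      (-(2 * ω * s) / (3 * α * τ) + t * α / (3 * τ)) := fun s t =>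
    J_eq hα hτ hω hΔ hl hc s t
  have hqY := hY_eq hα hτ hω hΔ hl hc
  have hqX := hX_eq hα hτ hω hΔ hl hc
  obtain ⟨e₁, he₁⟩ : ∃ e₁, e₁ = e * τ / (3 * α) := ⟨_, rfl⟩
  obtain ⟨e₂, he₂⟩ : ∃ e₂, e₂ = -(2 * ω * e) / (3 * α * τ) + f * α / (3 * τ) := ⟨_, rfl⟩
  rw [← he₁, ← he₂]
  have hbr : ∀ s t : ℝ, s * τ / (3 * α) * e₂ -
      (-(2 * ω * s) / (3 * α * τ) + t * α / (3 * τ)) * e₁ = (s * f - t * e) / 9 := by
    intro s t
    rw [he₁, he₂]
    field_simp
    ring
  have hR : ∀ (s t X' Y' : ℝ) (q : MvPolynomial (Fin 4) ℝ),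
      eval ![s, t, X', Y'] (C (78732 * Δ ^ 3) * sub α ω τ q) = 78732 * Δ ^ 3 *
        eval ![s * τ / (3 * α), -(2 * ω * s) / (3 * α * τ) + t * α / (3 * τ),
        (X' + ω * Y') / τ, τ * Y'] q := by
    intro s t X' Y' q
    rw [map_mul, eval_C, eval_sub]
  have key : ∀ i : Fin 4, DI x y α β e f (sub α ω τ (X i)) = C (78732 * Δ ^ 3) *
      sub α ω τ (V4 l c e₁ e₂ (X i)) := by
    intro i
    fin_cases i
    · change DI x y α β e f (sub α ω τ (X 0)) = C (78732 * Δ ^ 3) *
        sub α ω τ (V4 l c e₁ e₂ (X 0))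
      rw [sub_zero', V4_zero, Derivation.leibniz, derivation_C, smul_zero, add_zero, smul_eq_mul,
        DI_zero]
      refine funext4 fun s t X' Y' => ?_
      rw [hR]
      simp only [map_mul, map_jI, map_J4, eval_C, ev_C, eval_X]
      change τ / (3 * α) * (jI x y α β s t * e) = 78732 * Δ ^ 3 * (J4 l c _ _ * e₁)
      rw [hJ, he₁]
      simp only [Matrix.cons_val_zero, Matrix.cons_val_one]
      ring
    · change DI x y α β e f (sub α ω τ (X 1)) = C (78732 * Δ ^ 3) *
        sub α ω τ (V4 l c e₁ e₂ (X 1))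
      rw [sub_one', V4_one, map_add, Derivation.leibniz, Derivation.leibniz, derivation_C,
        derivation_C, smul_zero, add_zero, smul_zero, add_zero, smul_eq_mul, smul_eq_mul,
        DI_zero, DI_one]
      refine funext4 fun s t X' Y' => ?_
      rw [hR]
      simp only [map_add, map_mul, map_jI, map_J4, eval_C, ev_C, eval_X]
      change -(2 * ω) / (3 * α * τ) * (jI x y α β s t * e) + α / (3 * τ) *
        (jI x y α β s t * f) = 78732 * Δ ^ 3 * (J4 l c _ _ * e₂)
      rw [hJ, he₂]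
      simp only [Matrix.cons_val_zero, Matrix.cons_val_one]
      ring
    · change DI x y α β e f (sub α ω τ (X 2)) = C (78732 * Δ ^ 3) *
        sub α ω τ (V4 l c e₁ e₂ (X 2))
      rw [sub_two', V4_two, map_add, Derivation.leibniz, Derivation.leibniz, derivation_C,
        derivation_C, smul_zero, add_zero, smul_zero, add_zero, smul_eq_mul, smul_eq_mul,
        DI_two, DI_three]
      refine funext4 fun s t X' Y' => ?_
      rw [hR]
      simp only [map_add, map_sub, map_neg, map_mul, map_qX, map_qY, map_hY, eval_C, ev_C, eval_X,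
        map_ofNat]
      change 1 / τ * -(27 * (s * f - t * e) * qY x y α β s t X' Y') + ω / τ *
        (27 * (s * f - t * e) * qX x y α β s t X' Y') = 78732 * Δ ^ 3 *
        -(1 / 4 * (s * τ / (3 * α) * e₂ -
          (-(2 * ω * s) / (3 * α * τ) + t * α / (3 * τ)) * e₁) * hY l c _ _ _ _)
      rw [hqX, hqY, hbr]
      simp only [Matrix.cons_val_zero, Matrix.cons_val_one, Matrix.cons_val]
      field_simp
      ring
    · change DI x y α β e f (sub α ω τ (X 3)) = C (78732 * Δ ^ 3) *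
        sub α ω τ (V4 l c e₁ e₂ (X 3))
      rw [sub_three', V4_three, Derivation.leibniz, derivation_C, smul_zero, add_zero,
        smul_eq_mul, DI_three]
      refine funext4 fun s t X' Y' => ?_
      rw [hR]
      simp only [map_add, map_sub, map_neg, map_mul, map_qX, map_hX, eval_C, ev_C, eval_X,
        map_ofNat]
      change τ * (27 * (s * f - t * e) * qX x y α β s t X' Y') = 78732 * Δ ^ 3 *
        (1 / 4 * (s * τ / (3 * α) * e₂ -
          (-(2 * ω * s) / (3 * α * τ) + t * α / (3 * τ)) * e₁) * hX l c _ _ _ _)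
      rw [hqX, hbr]
      simp only [Matrix.cons_val_zero, Matrix.cons_val_one, Matrix.cons_val]
      field_simp
      ring
  obtain ⟨κ, hκ⟩ : ∃ κ, κ = 78732 * Δ ^ 3 := ⟨_, rfl⟩
  rw [← hκ]
  simp only [← hκ] at key
  induction p using MvPolynomial.induction_on with
  | C a =>
    rw [← algebraMap_eq, AlgHom.commutes, Derivation.map_algebraMap, Derivation.map_algebraMap,
      map_zero, mul_zero]
  | add p q hp hq => rw [map_add, map_add, map_add, map_add, hp, hq, mul_add]
  | mul_X p i hp =>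
    rw [map_mul, Derivation.leibniz, Derivation.leibniz, map_add, smul_eq_mul, smul_eq_mul,
      smul_eq_mul, smul_eq_mul, map_mul, map_mul, hp, key]
    ring

theorem conj_iter (e f : ℝ) (i : ℕ) (p : MvPolynomial (Fin 4) ℝ) :
    (fun z => DI x y α β e f z)^[i] (sub α ω τ p) = C ((78732 * Δ ^ 3) ^ i) * sub α ω τ
      ((fun z => V4 l c (e * τ / (3 * α)) (-(2 * ω * e) / (3 * α * τ) + f * α / (3 * τ)) z)^[i]
        p) := by
  induction i generalizing p with
  | zero => rw [pow_zero, map_one, one_mul]; rfl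
  | succ i ih =>
    rw [Function.iterate_succ_apply', ih, Derivation.leibniz, derivation_C, smul_zero, add_zero,
      smul_eq_mul, conj hα hτ hω hΔ hl hc, Function.iterate_succ_apply', ← mul_assoc, ← map_mul,
      ← pow_succ]

end conj

end Pool.Agent.Work.MP_f2148a_nt.M56.G3
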