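import Pool.Agent.Work.MP_f2148a_nt.M56.G3.Zero

set_option autoImplicit false

/-!
# MP_f2148a_nt, block G3 (B1): `nab` as a directional derivative, final form (all proved)

`b1`: at a point of the box on `g = 0` with `nab` in the direction `(1,0)` not zero there is a
direction `a` with `D = dir m n g s t u v a ≠ 0` and
`|D| ≤ 26244 Δ³ |d₂|^(m+1) |ξ|^n 2^m (4m+n) cost · nrm ρ g₀ g~`.
-/

namespace Pool.Agent.Work.MP_f2148a_nt.M56.G3

open Polynomial

/-- Derivations of the polynomial ring at a point are directional derivatives. -/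
private theorem der_eq_coeff (D : Derivation ℤ (MvPolynomial (Fin 4) ℤ) (MvPolynomial (Fin 4) ℤ))
    (z a : Fin 4 → ℤ) (ha : ∀ i, MvPolynomial.eval z (D (MvPolynomial.X i)) = a i)
    (H : MvPolynomial (Fin 4) ℤ) :
    (MvPolynomial.aeval (fun i => (C (z i) + C (a i) * X : ℤ[X])) H).coeff 0 =
      MvPolynomial.eval z H ∧
    (MvPolynomial.aeval (fun i => (C (z i) + C (a i) * X : ℤ[X])) H).coeff 1 =
      MvPolynomial.eval z (D H) := by
  induction H using MvPolynomial.induction_on with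
  | C c =>
    rw [MvPolynomial.aeval_C, MvPolynomial.derivation_C, map_zero, MvPolynomial.eval_C]
    exact ⟨coeff_C_zero, coeff_C_succ⟩
  | add p q hp hq =>
    rw [map_add, map_add, map_add, coeff_add, coeff_add, map_add, hp.1, hq.1, hp.2, hq.2]
    exact ⟨rfl, rfl⟩
  | mul_X p i hp =>
    rw [map_mul, MvPolynomial.aeval_X, map_mul, MvPolynomial.eval_X, Derivation.leibniz, map_add,
      smul_eq_mul, smul_eq_mul, map_mul, map_mul, MvPolynomial.eval_X, ha]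
    have e0 : (C (z i) + C (a i) * X : ℤ[X]).coeff 0 = z i := by
      rw [coeff_add, coeff_C_zero, mul_coeff_zero, coeff_X_zero, mul_zero, add_zero]
    have e1 : (C (z i) + C (a i) * X : ℤ[X]).coeff 1 = a i := by
      rw [coeff_add, coeff_C_succ, coeff_C_mul, coeff_X_one, mul_one, zero_add]
    constructor
    · rw [mul_coeff_zero, hp.1, e0]
    · rw [mul_coeff_one, hp.1, hp.2, e0, e1]
      ring

theorem nab_eq_dir (x y α β e f : ℤ) (m n : ℕ) (g : ℤ[X][X]) (s t u v : ℤ) :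
    nab x y α β e f m n g s t u v = LD.dir m n g s t u v (jI x y α β s t * e)
      (jI x y α β s t * f) (-(27 * (s * f - t * e) * qY x y α β s t u v))
      (27 * (s * f - t * e) * qX x y α β s t u v) := by
  have e0 : MvPolynomial.eval ![s, t, u, v] (DI x y α β e f (MvPolynomial.X 0)) =
      jI x y α β s t * e := by
    rw [DI_zero, map_mul, map_jI]
    simp only [MvPolynomial.eval_C, MvPolynomial.eval_X]
    rfl
  have e1 : MvPolynomial.eval ![s, t, u, v] (DI x y α β e f (MvPolynomial.X 1)) =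
      jI x y α β s t * f := by
    rw [DI_one, map_mul, map_jI]
    simp only [MvPolynomial.eval_C, MvPolynomial.eval_X]
    rfl
  have e2 : MvPolynomial.eval ![s, t, u, v] (DI x y α β e f (MvPolynomial.X 2)) =
      -(27 * (s * f - t * e) * qY x y α β s t u v) := by
    rw [DI_two, map_neg, map_mul, map_mul, map_qY, map_sub, map_mul, map_mul]
    simp only [MvPolynomial.eval_C, MvPolynomial.eval_X, map_ofNat]
    rfl
  have e3 : MvPolynomial.eval ![s, t, u, v] (DI x y α β e f (MvPolynomial.X 3)) =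
      27 * (s * f - t * e) * qX x y α β s t u v := by
    rw [DI_three, map_mul, map_mul, map_qX, map_sub, map_mul, map_mul]
    simp only [MvPolynomial.eval_C, MvPolynomial.eval_X, map_ofNat]
    rfl
  have h := (der_eq_coeff (DI x y α β e f) ![s, t, u, v]
    ![jI x y α β s t * e, jI x y α β s t * f, -(27 * (s * f - t * e) * qY x y α β s t u v),
      27 * (s * f - t * e) * qX x y α β s t u v] (fun i => by
        fin_cases i
        · exact e0
        · exact e1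
        · exact e2
        · exact e3) (fZ m n g)).2
  rw [nab, ← h, fZ, ev_algHom]
  simp only [MvPolynomial.aeval_X]
  rfl

/-- `dir` as a linear function of the direction. -/
theorem dir_lin (m n : ℕ) (g : ℤ[X][X]) (s t u v : ℤ) : ∃ g₁ g₂ g₃ g₄ : ℤ,
    ∀ a₁ a₂ a₃ a₄ : ℤ, LD.dir m n g s t u v a₁ a₂ a₃ a₄ =
      g₁ * a₁ + g₂ * a₂ + g₃ * a₃ + g₄ * a₄ := by
  refine ⟨MvPolynomial.eval ![s, t, u, v] (MvPolynomial.pderiv 0 (fZ m n g)),
    MvPolynomial.eval ![s, t, u, v] (MvPolynomial.pderiv 1 (fZ m n g)),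
    MvPolynomial.eval ![s, t, u, v] (MvPolynomial.pderiv 2 (fZ m n g)),
    MvPolynomial.eval ![s, t, u, v] (MvPolynomial.pderiv 3 (fZ m n g)), fun a₁ a₂ a₃ a₄ => ?_⟩
  obtain ⟨D, hD⟩ : ∃ D : Derivation ℤ (MvPolynomial (Fin 4) ℤ) (MvPolynomial (Fin 4) ℤ),
      D = MvPolynomial.mkDerivation ℤ (fun i : Fin 4 =>
        (MvPolynomial.C ((![a₁, a₂, a₃, a₄] : Fin 4 → ℤ) i) : MvPolynomial (Fin 4) ℤ)) := ⟨_, rfl⟩
  have h := (der_eq_coeff D ![s, t, u, v] ![a₁, a₂, a₃, a₄] (fun i => by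
      rw [hD, MvPolynomial.mkDerivation_X, MvPolynomial.eval_C]) (fZ m n g)).2
  have h2 : LD.dir m n g s t u v a₁ a₂ a₃ a₄ = (MvPolynomial.aeval (fun i =>
      (C ((![s, t, u, v] : Fin 4 → ℤ) i) + C ((![a₁, a₂, a₃, a₄] : Fin 4 → ℤ) i) * X : ℤ[X]))
        (fZ m n g)).coeff 1 := by
    rw [fZ, ev_algHom]
    simp only [MvPolynomial.aeval_X]
    rfl
  rw [h2, h]
  have h3 : D = (MvPolynomial.C a₁ : MvPolynomial (Fin 4) ℤ) • MvPolynomial.pderiv 0 +
      (MvPolynomial.C a₂ : MvPolynomial (Fin 4) ℤ) • MvPolynomial.pderiv 1 +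
      (MvPolynomial.C a₃ : MvPolynomial (Fin 4) ℤ) • MvPolynomial.pderiv 2 +
      (MvPolynomial.C a₄ : MvPolynomial (Fin 4) ℤ) • MvPolynomial.pderiv 3 := by
    refine MvPolynomial.derivation_ext fun i => ?_
    rw [hD, MvPolynomial.mkDerivation_X]
    simp only [Derivation.add_apply, Derivation.smul_apply, smul_eq_mul]
    fin_cases i <;> simp [MvPolynomial.pderiv_X]
  rw [h3]
  simp only [Derivation.add_apply, Derivation.smul_apply, smul_eq_mul, map_add, map_mul,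
    MvPolynomial.eval_C]
  ring

/-- Euler's identity. -/
theorem dir_euler (m n : ℕ) (g : ℤ[X][X]) (s t u v : ℤ) :
    LD.dir m n g s t u v s t 0 0 = m * LD.ev m n g s t u v := by
  unfold LD.dir
  have h := LD.ev_hom (S := ℤ[X]) m n g (C s) (C t) (C u) (C v) (1 + X) 1
  have h2 := LD.ev_map (R := ℤ) (Algebra.ofId ℤ ℤ[X]) m n g s t u v
  have h3 : ∀ a : ℤ, Algebra.ofId ℤ ℤ[X] a = C a := fun a => rfl
  rw [h3, h3, h3, h3, h3] at h2
  rw [h2] at h
  have e1 : (C s + C s * X : ℤ[X]) = (1 + X) * C s := by ring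
  have e2 : (C t + C t * X : ℤ[X]) = (1 + X) * C t := by ring
  have e3 : (C u + C 0 * X : ℤ[X]) = 1 * C u := by rw [C_0]; ring
  have e4 : (C v + C 0 * X : ℤ[X]) = 1 * C v := by rw [C_0]; ring
  rw [e1, e2, e3, e4, h, one_pow, mul_one, coeff_mul_C]
  have h5 : ((1 + X : ℤ[X]) ^ m).coeff 1 = m := by
    rw [add_comm, coeff_X_add_one_pow]
    simp
  rw [h5]

theorem nab_lin (x y α β e f : ℤ) (m n : ℕ) (g : ℤ[X][X]) (s t u v : ℤ)
    (h0 : LD.ev m n g s t u v = 0) : t * nab x y α β e f m n g s t u v =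
      -(s * f - t * e) * nab x y α β 1 0 m n g s t u v := by
  obtain ⟨g₁, g₂, g₃, g₄, hg⟩ := dir_lin m n g s t u v
  have h1 := dir_euler m n g s t u v
  rw [h0, mul_zero, hg] at h1
  rw [nab_eq_dir, nab_eq_dir, hg, hg]
  linear_combination (f * jI x y α β s t) * h1

theorem exists_ef {x y α β s t u v : ℤ} (hF : Fq x y α β s t u v = 3) :
    ∃ e f : ℤ, 0 < s * f - t * e ∧ s * f - t * e ≤ 3 := by
  have h1 : (Int.gcd s t : ℤ) ∣ 3 := by
    rw [← hF]
    unfold Fq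
    refine dvd_add ?_ ?_
    · exact Dvd.dvd.mul_right (Dvd.dvd.mul_left (Int.gcd_dvd_left _ _) _) _
    · exact Dvd.dvd.mul_right (Int.gcd_dvd_right _ _) _
  have h2 := Int.gcd_eq_gcd_ab s t
  refine ⟨-Int.gcdB s t, Int.gcdA s t, ?_, ?_⟩
  · have h3 : (0 : ℤ) < Int.gcd s t := by
      rcases Nat.eq_zero_or_pos (Int.gcd s t) with h | h
      · rw [h] at h1
        norm_num at h1
      · exact_mod_cast h
    rw [h2] at h3
    linarith
  · have h3 := Int.le_of_dvd (by norm_num) h1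
    rw [h2] at h3
    linarith

/-- (B1), final form. -/
theorem b1 {x y α β : ℤ} {ω τ Δ l c ρ g₀ : ℝ} (hα : 1 ≤ α) (hτ : 0 < τ)
    (hD : Dep (Z0 x y α β) ω τ Δ l c) (hl : |l| ≤ 1) (hc : |c| ≤ 1) (hρ : 0 < ρ)
    (hρ1 : ρ ≤ 1 / 5) (hg : 0 ≤ g₀) (hg1 : g₀ ≤ 1) (m n : ℕ) (g : ℤ[X][X])
    (s t u v : ℤ) (hF : Fq x y α β s t u v = 3) {d₁ d₂ ξ υ : ℝ}
    (hd1 : d₁ = s * τ / (3 * α)) (hd2 : d₂ = -(2 * ω * s) / (3 * α * τ) + t * α / (3 * τ))
    (hξ' : ξ = (u + ω * v) / τ) (hυ : υ = τ * v) (h2 : d₂ ≠ 0) (hξ : ξ ≠ 0) (hr : |υ / ξ| ≤ ρ)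
    (hu : |d₁ / d₂ * G4.pa l c (υ / ξ) + G4.pb l c (υ / ξ)| ≤ g₀)
    (h0 : LD.ev m n g s t u v = 0) (hnz : nab x y α β 1 0 m n g s t u v ≠ 0) :
    ∃ a₁ a₂ a₃ a₄ : ℤ, LD.dir m n g s t u v a₁ a₂ a₃ a₄ ≠ 0 ∧
      |((LD.dir m n g s t u v a₁ a₂ a₃ a₄ : ℤ) : ℝ)| ≤
      26244 * Δ ^ 3 * (|d₂| ^ (m + 1) * |ξ| ^ n) * (2 ^ m * (G4.cost c ρ g₀ * (4 * m + n : ℕ) *
          LD.nrm ρ g₀ (LD.psi (U1 l c) (U2 l c) m n (LD.rl (frm α ω τ) m n g)))) := by
  obtain ⟨e, f, hef, hef3⟩ := exists_ef hF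
  refine ⟨jI x y α β s t * e, jI x y α β s t * f,
    -(27 * (s * f - t * e) * qY x y α β s t u v), 27 * (s * f - t * e) * qX x y α β s t u v,
    ?_, ?_⟩
  · rw [← nab_eq_dir x y α β e f]
    intro h
    have h1 := nab_lin x y α β e f m n g s t u v h0
    rw [h, mul_zero] at h1
    rcases mul_eq_zero.1 h1.symm with h3 | h3
    · rw [neg_eq_zero] at h3
      exact hef.ne' h3
    · exact hnz h3
  · rw [← nab_eq_dir x y α β e f]
    have h1 := nab_le hα hτ hD hl hc hρ hρ1 hg hg1 m n g s t u v e f hd1 hd2 hξ' hυ h2 hξ hr hu h0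
    refine h1.trans ?_
    have h3 : |((s * f - t * e : ℤ) : ℝ)| ≤ 3 := by
      rw [abs_of_pos (by exact_mod_cast hef)]
      exact_mod_cast hef3
    have hα0 : (0 : ℝ) < α := by exact_mod_cast hα
    obtain ⟨hΔ, _, _, _⟩ := of_dep hα hτ hD
    have hΔ0 : 0 < Δ := by rw [hΔ]; positivity
    have hcost : 0 ≤ G4.cost c ρ g₀ := by linarith [G4.cost_ge (c := c) hρ hg]
    have hn : 0 ≤ LD.nrm ρ g₀ (LD.psi (U1 l c) (U2 l c) m n (LD.rl (frm α ω τ) m n g)) := by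
      refine Finset.sum_nonneg fun z _ => mul_nonneg (abs_nonneg _) ?_
      unfold LD.wt
      positivity
    have h4 : 8748 * Δ ^ 3 * |((s * f - t * e : ℤ) : ℝ)| ≤ 26244 * Δ ^ 3 := by
      have h5 : 8748 * Δ ^ 3 * |((s * f - t * e : ℤ) : ℝ)| ≤ 8748 * Δ ^ 3 * 3 :=
        mul_le_mul_of_nonneg_left h3 (by positivity)
      linarith
    have h6 : (0 : ℝ) ≤ (|d₂| ^ (m + 1) * |ξ| ^ n) := by positivity
    have h7 : (0 : ℝ) ≤ 2 ^ m * (G4.cost c ρ g₀ * (4 * m + n : ℕ) *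
          LD.nrm ρ g₀ (LD.psi (U1 l c) (U2 l c) m n (LD.rl (frm α ω τ) m n g))) := by positivity
    exact mul_le_mul_of_nonneg_right (mul_le_mul_of_nonneg_right h4 h6) h7

end Pool.Agent.Work.MP_f2148a_nt.M56.G3
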