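import Pool.Agent.Work.MP_f2148a_nt.M56.G3.Der

set_option autoImplicit false
set_option linter.unusedSimpArgs false

/-!
# MP_f2148a_nt, block G3 (B1b): flatness of the derivation (all proved)

In affine coordinates `t = 1, Y = 1` the derivation is `D s = jI(s,1)`, `D y = 54 qI(s,1;y,1)`.
Then `3 D F = (J_s + 324 q_X) F`, `3 D H = (2 J_s + 324 q_X) H`, `D J = J_s J`.
-/

namespace Pool.Agent.Work.MP_f2148a_nt.M56.G3

section generic

variable {A : Type*} [CommRing A]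

/-- The quartic `3F = 3sF⁰+tG₁` at `(X, Y)`. -/
def Fq (x y α β s t X Y : A) : A :=
  3 * s * (X ^ 4 - 6 * x * X ^ 2 * Y ^ 2 + 8 * y * X * Y ^ 3 - 3 * x ^ 2 * Y ^ 4) +
    t * (2 * Y * (3 * α ^ 2 * X ^ 3 + 3 * α * β * X ^ 2 * Y + β ^ 2 * X * Y ^ 2
      + (3 * α * β * x + 6 * α ^ 2 * y) * Y ^ 3))

/-- The Hessian of the quartic. -/
def Hh (x y α β s t X Y : A) : A :=
  (12 * (3 * s) * X ^ 2 + 6 * (6 * α ^ 2 * t) * X * Y
      + 2 * (-18 * x * s + 6 * α * β * t) * Y ^ 2)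
    * (2 * (-18 * x * s + 6 * α * β * t) * X ^ 2 + 6 * (24 * y * s + 2 * β ^ 2 * t) * X * Y
      + 12 * (-9 * x ^ 2 * s + (6 * α * β * x + 12 * α ^ 2 * y) * t) * Y ^ 2)
    - (3 * (6 * α ^ 2 * t) * X ^ 2 + 4 * (-18 * x * s + 6 * α * β * t) * X * Y
      + 3 * (24 * y * s + 2 * β ^ 2 * t) * Y ^ 2) ^ 2

/-- `∂jI/∂s` at `t = 1` -/
def js (x y α β s : A) : A :=
  3 * (46656 * x ^ 3 - 46656 * y ^ 2) * s ^ 2
    + 2 * (-46656 * x ^ 2 * α * β - 69984 * x * y * α ^ 2 - 7776 * y * β ^ 2) * s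
    + (8748 * x ^ 2 * α ^ 4 + 9720 * x * α ^ 2 * β ^ 2 + 23328 * y * α ^ 3 * β - 324 * β ^ 4)

end generic

section der

variable {A : Type*} [CommRing A] (D : Derivation ℤ A A)

private theorem d_num (k : ℕ) (c : A) (hc : c = (k : A)) : D c = 0 := by
  rw [hc]
  exact D.map_natCast k

variable {x y α β s Y : A} (hx : D x = 0) (hy : D y = 0) (hα : D α = 0) (hβ : D β = 0)
  (hs : D s = jI x y α β s 1) (hY : D Y = 54 * qI x y α β s 1 Y 1)

include hx hy hα hβ hs

theorem D_J : D (jI x y α β s 1) = js x y α β s * jI x y α β s 1 := by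
  have h2 : D (2 : A) = 0 := d_num D 2 2 (by norm_num)
  have h3 : D (3 : A) = 0 := d_num D 3 3 (by norm_num)
  have h6 : D (6 : A) = 0 := d_num D 6 6 (by norm_num)
  have h9 : D (9 : A) = 0 := d_num D 9 9 (by norm_num)
  have h12 : D (12 : A) = 0 := d_num D 12 12 (by norm_num)
  have h18 : D (18 : A) = 0 := d_num D 18 18 (by norm_num)
  have h24 : D (24 : A) = 0 := d_num D 24 24 (by norm_num)
  have h27 : D (27 : A) = 0 := d_num D 27 27 (by norm_num)
  have h72 : D (72 : A) = 0 := d_num D 72 72 (by norm_num)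
  have h1 : D (1 : A) = 0 := D.map_one_eq_zero
  conv_lhs => unfold jI
  simp only [map_add, map_sub, map_neg, Derivation.leibniz, Derivation.leibniz_pow, hx, hy, hα,
    hβ, hs, h1, h2, h3, h6, h9, h12, h18, h24, h27, h72, smul_eq_mul, smul_zero, mul_zero,
    add_zero, zero_add, nsmul_eq_mul, sub_zero, zero_sub, neg_zero]
  unfold jI js
  push_cast
  ring

include hY

theorem D_F : 3 * D (Fq x y α β s 1 Y 1) =
    (js x y α β s + 324 * qX x y α β s 1 Y 1) * Fq x y α β s 1 Y 1 := by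
  have h2 : D (2 : A) = 0 := d_num D 2 2 (by norm_num)
  have h3 : D (3 : A) = 0 := d_num D 3 3 (by norm_num)
  have h6 : D (6 : A) = 0 := d_num D 6 6 (by norm_num)
  have h8 : D (8 : A) = 0 := d_num D 8 8 (by norm_num)
  have h1 : D (1 : A) = 0 := D.map_one_eq_zero
  conv_lhs => unfold Fq
  simp only [map_add, map_sub, map_neg, Derivation.leibniz, Derivation.leibniz_pow, hx, hy, hα,
    hβ, hs, hY, h1, h2, h3, h6, h8, smul_eq_mul, smul_zero, mul_zero,
    add_zero, zero_add, nsmul_eq_mul, sub_zero, zero_sub, neg_zero]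
  unfold jI js qI qX qA qB qC Fq
  push_cast
  ring

theorem D_H : 3 * D (Hh x y α β s 1 Y 1) =
    (2 * js x y α β s + 324 * qX x y α β s 1 Y 1) * Hh x y α β s 1 Y 1 := by
  have h2 : D (2 : A) = 0 := d_num D 2 2 (by norm_num)
  have h3 : D (3 : A) = 0 := d_num D 3 3 (by norm_num)
  have h4 : D (4 : A) = 0 := d_num D 4 4 (by norm_num)
  have h6 : D (6 : A) = 0 := d_num D 6 6 (by norm_num)
  have h9 : D (9 : A) = 0 := d_num D 9 9 (by norm_num)
  have h12 : D (12 : A) = 0 := d_num D 12 12 (by norm_num)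
  have h18 : D (18 : A) = 0 := d_num D 18 18 (by norm_num)
  have h24 : D (24 : A) = 0 := d_num D 24 24 (by norm_num)
  have h1 : D (1 : A) = 0 := D.map_one_eq_zero
  conv_lhs => unfold Hh
  simp only [map_add, map_sub, map_neg, Derivation.leibniz, Derivation.leibniz_pow, hx, hy, hα,
    hβ, hs, hY, h1, h2, h3, h4, h6, h9, h12, h18, h24, smul_eq_mul, smul_zero, mul_zero,
    add_zero, zero_add, nsmul_eq_mul, sub_zero, zero_sub, neg_zero]
  unfold jI js qI qX qA qB qC Hh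
  push_cast
  ring

end der

end Pool.Agent.Work.MP_f2148a_nt.M56.G3
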