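import Pool.Agent.Work.MP_f2148a_nt.M56.G3.Dir

set_option autoImplicit false

/-!
# MP_f2148a_nt, block G3: `Fq`, `Hh`, `jI` and the quartic of `M56/Defs` (all proved)
-/

namespace Pool.Agent.Work.MP_f2148a_nt.M56.G3

theorem Fq_eq (x y α β s t X Y : ℤ) :
    3 * s * F0 x y X Y + t * M56.G1 x y α β X Y = Fq x y α β s t X Y := by
  unfold F0 M56.G1 Fq
  ring

theorem Hq_eq (x y α β s t X Y : ℤ) :
    Hq (q4 x y α β s t) X Y = Hh x y α β s t X Y := by
  simp only [Hq, q4, Hh]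

end Pool.Agent.Work.MP_f2148a_nt.M56.G3
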