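import Pool.Agent.Work.MP_f2148a_nt.M56.G3.Dat

set_option autoImplicit false

/-!
# MP_f2148a_nt, block G3: consequences of (B1) for the points of a box (all proved)

`split`: all but `n (m+2) + m (n+1) + n` points of a box on an irreducible curve have a direction
with nonzero derivative of controlled size. `low`: the lower bound of the norm of the form.
`v0_one`, `t0_one`: the points with `v = 0` or `t = 0`.
-/

namespace Pool.Agent.Work.MP_f2148a_nt.M56.G3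

open G4

variable {x y α β : ℤ} {ω τ Δ l c ρ S Q : ℝ}

/-- The upper bound of the derivatives. -/
noncomputable def up (Δ S Q c ρ γ : ℝ) (m n : ℕ) (ν : ℝ) : ℝ :=
  26244 * Δ ^ 3 * ((10 * S) ^ (m + 1) * (2 * Q) ^ n) *
    (2 ^ m * (cost c ρ γ * (4 * m + n : ℕ) * ν))

theorem b1_box (hR : H.Rf x y α β ω τ Δ l c) (hS : 0 < S) (hQ : 0 < Q) (hρ : 0 < ρ)
    (hρ1 : ρ ≤ 1 / 5) {γ : ℝ} (hγ : 10 / (3 * Δ * S * Q ^ 4) ≤ γ) (hγ1 : γ ≤ 1) (m n : ℕ)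
    (g : Polynomial (Polynomial ℤ)) {s t u v : ℤ} (hB : H.Bx x y α β ω τ ρ S Q s t u v)
    (h0 : LD.ev m n g s t u v = 0) (hnz : nab x y α β 1 0 m n g s t u v ≠ 0) :
    ∃ a₁ a₂ a₃ a₄ : ℤ, LD.dir m n g s t u v a₁ a₂ a₃ a₄ ≠ 0 ∧
      |((LD.dir m n g s t u v a₁ a₂ a₃ a₄ : ℤ) : ℝ)| ≤ up Δ S Q c ρ γ m n
        (LD.nrm ρ γ (LD.psi (U1 l c) (U2 l c) m n (LD.rl (frm α ω τ) m n g))) := by
  obtain ⟨h1, h2, h3, h4, h5, h6, h7, h8⟩ := bx_facts hR hS hQ hρ1 hB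
  have hΔ0 : 0 < Δ := by linarith [hR.hΔ]
  have hγ0 : 0 < γ := lt_of_lt_of_le (by positivity) hγ
  have hF : Fq x y α β s t u v = 3 := by rw [← Fq_eq]; exact hB.val
  obtain ⟨a₁, a₂, a₃, a₄, ha, hb⟩ := b1 hR.hα hR.hτ hR.dep hR.hl hR.hc hρ hρ1 hγ0.le hγ1 m n g
    s t u v hF (d₁ := s * τ / (3 * α)) (d₂ := dd α ω τ s t) (ξ := xx ω τ u v) (υ := τ * v)
    rfl rfl rfl rfl h1.ne' h3 h5 (by
      have h9 : τ * v / xx ω τ u v = rr ω τ u v := rfl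
      rw [h9, h7]
      exact h8.trans hγ) h0 hnz
  refine ⟨a₁, a₂, a₃, a₄, ha, hb.trans ?_⟩
  have hcost : 0 ≤ cost c ρ γ := by linarith [cost_ge (c := c) hρ hγ0.le]
  have hn := LD.nrm_nonneg hρ.le hγ0.le
    (LD.psi (U1 l c) (U2 l c) m n (LD.rl (frm α ω τ) m n g))
  unfold up
  refine mul_le_mul_of_nonneg_right ?_ (by positivity)
  refine mul_le_mul_of_nonneg_left ?_ (by positivity)
  refine mul_le_mul (pow_le_pow_left₀ (abs_nonneg _) ?_ _) (pow_le_pow_left₀ (abs_nonneg _) h4 _)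
    (by positivity) (by positivity)
  rw [abs_of_pos h1]
  exact h2

/-- All but boundedly many points have a nonzero derivative of controlled size. -/
theorem split (hR : H.Rf x y α β ω τ Δ l c) (hS : 0 < S) (hQ : 0 < Q) (hρ : 0 < ρ)
    (hρ1 : ρ ≤ 1 / 5) {γ : ℝ} (hγ : 10 / (3 * Δ * S * Q ^ 4) ≤ γ) (hγ1 : γ ≤ 1) {m n : ℕ}
    {g : Polynomial (Polynomial ℤ)} (hg : LD.Irr m n g) {ι : Type*} [Fintype ι] (P : LD.Pts ι)
    (hP : P.On m n g) (hB : ∀ i, H.Bx x y α β ω τ ρ S Q (P.s i) (P.t i) (P.u i) (P.v i))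
    (hd : ∀ i j, i ≠ j → Hq (q4 x y α β (P.s i) (P.t i)) (P.u i) (P.v i) ^ 3 *
      J432 (q4 x y α β (P.s j) (P.t j)) ≠ Hq (q4 x y α β (P.s j) (P.t j)) (P.u j) (P.v j) ^ 3 *
      J432 (q4 x y α β (P.s i) (P.t i))) :
    ∃ Z : Finset ι, Z.card ≤ n * (m + 2) + m * (n + 1) + n ∧ ∀ i, i ∉ Z →
      ∃ a₁ a₂ a₃ a₄ : ℤ, LD.dir m n g (P.s i) (P.t i) (P.u i) (P.v i) a₁ a₂ a₃ a₄ ≠ 0 ∧
      |((LD.dir m n g (P.s i) (P.t i) (P.u i) (P.v i) a₁ a₂ a₃ a₄ : ℤ) : ℝ)| ≤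
        up Δ S Q c ρ γ m n
          (LD.nrm ρ γ (LD.psi (U1 l c) (U2 l c) m n (LD.rl (frm α ω τ) m n g))) := by
  classical
  refine ⟨Finset.univ.filter fun i => nab x y α β 1 0 m n g (P.s i) (P.t i) (P.u i) (P.v i) = 0,
    ?_, fun i hi => ?_⟩
  · rw [← Fintype.card_coe]
    have hz : ∀ i : {i // i ∈ Finset.univ.filter fun i =>
        nab x y α β 1 0 m n g (P.s i) (P.t i) (P.u i) (P.v i) = 0},
        nab x y α β 1 0 m n g (P.s i) (P.t i) (P.u i) (P.v i) = 0 := fun i =>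
      (Finset.mem_filter.1 i.2).2
    refine card_le_of_nab (x := x) (y := y) (α := α) (β := β) hg
      ⟨fun i => P.s i, fun i => P.t i, fun i => P.u i, fun i => P.v i⟩ ?_ ?_ ?_ ?_ hz
    · exact ⟨fun i j hij => hP.dst i j fun h => hij (Subtype.ext h), fun i => hP.t0 i,
        fun i => hP.v0 i, fun i => hP.zero i⟩
    · intro i
      rw [← Fq_eq]
      exact (hB i).val
    · intro i
      rw [← J432_eq]
      exact (hB i).jne
    · intro i j hij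
      rw [← J432_eq, ← J432_eq, ← Hq_eq, ← Hq_eq]
      exact hd i j fun h => hij (Subtype.ext h)
  · exact b1_box hR hS hQ hρ hρ1 hγ hγ1 m n g (hB i) (hP.zero i) fun h =>
      hi (Finset.mem_filter.2 ⟨Finset.mem_univ _, h⟩)

/-- Lower bound of the norm of the form. -/
theorem low (hR : H.Rf x y α β ω τ Δ l c) (hS : 0 < S) (hQ : 0 < Q) (hρ : 0 < ρ)
    (hρ1 : ρ ≤ 1 / 5) {γ : ℝ} (hγ : 10 / (3 * Δ * S * Q ^ 4) ≤ γ) (hγ1 : γ ≤ 1) {m n : ℕ}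
    {g : Polynomial (Polynomial ℤ)} (hg : LD.Irr m n g) {ι : Type*} [Fintype ι] (P : LD.Pts ι)
    (hP : P.On m n g) (hB : ∀ i, H.Bx x y α β ω τ ρ S Q (P.s i) (P.t i) (P.u i) (P.v i))
    (hd : ∀ i j, i ≠ j → Hq (q4 x y α β (P.s i) (P.t i)) (P.u i) (P.v i) ^ 3 *
      J432 (q4 x y α β (P.s j) (P.t j)) ≠ Hq (q4 x y α β (P.s j) (P.t j)) (P.u j) (P.v j) ^ 3 *
      J432 (q4 x y α β (P.s i) (P.t i)))
    (hc : n * (m + 2) + m * (n + 1) + n < Fintype.card ι) :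
    1 ≤ up Δ S Q c ρ γ m n
      (LD.nrm ρ γ (LD.psi (U1 l c) (U2 l c) m n (LD.rl (frm α ω τ) m n g))) := by
  obtain ⟨Z, hZ, h⟩ := split hR hS hQ hρ hρ1 hγ hγ1 hg P hP hB hd
  obtain ⟨i, hi⟩ : ∃ i, i ∉ Z := by
    by_contra hcon
    push Not at hcon
    have h1 : Z = Finset.univ := Finset.eq_univ_iff_forall.2 hcon
    rw [h1, Finset.card_univ] at hZ
    omega
  obtain ⟨a₁, a₂, a₃, a₄, ha, hb⟩ := h i hi
  refine le_trans ?_ hb
  have h2 : (1 : ℤ) ≤ |LD.dir m n g (P.s i) (P.t i) (P.u i) (P.v i) a₁ a₂ a₃ a₄| :=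
    Int.one_le_abs ha
  exact_mod_cast h2

/-- Points with `v = 0`. -/
theorem v0_one (hR : H.Rf x y α β ω τ Δ l c) (hQ : 0 < Q) (hlt : 30 * S < Δ * Q ^ 4)
    {s t u s' t' u' : ℤ} (h : H.Bx x y α β ω τ ρ S Q s t u 0)
    (h' : H.Bx x y α β ω τ ρ S Q s' t' u' 0) : s = s' ∧ t = t' := by
  have hs : ∀ {s t u : ℤ}, H.Bx x y α β ω τ ρ S Q s t u 0 → s = 1 ∧ u ^ 4 = 1 := by
    intro s t u h
    have h1 := h.val
    rw [Fq_eq] at h1
    have h2 : s * u ^ 4 = 1 := by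
      have h3 : Fq x y α β s t u 0 = 3 * (s * u ^ 4) := by
        unfold Fq
        ring
      omega
    have h4 : 0 ≤ u ^ 4 := by positivity
    have h5 : u ^ 4 = 1 ∨ u ^ 4 = -1 := Int.isUnit_iff.1 (IsUnit.of_mul_eq_one _ (by
      rw [mul_comm]
      exact h2))
    rcases h5 with h5 | h5
    · refine ⟨?_, h5⟩
      rw [h5, mul_one] at h2
      exact h2
    · omega
  obtain ⟨s1, u1⟩ := hs h
  obtain ⟨s2, u2⟩ := hs h'
  refine ⟨s1.trans s2.symm, ?_⟩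
  by_contra hne
  have hα0 : (0 : ℝ) < α := by exact_mod_cast hR.hα
  have hτ := hR.hτ
  obtain ⟨hΔ, -⟩ := of_dep hR.hα hR.hτ hR.dep
  have hQ1 : Q * τ ≤ 1 := by
    have h1 := h.xi1
    have h2 : |(u : ℝ)| = 1 := by
      have h3 : |(u : ℝ)| ^ 4 = 1 := by
        rw [← abs_pow]
        have : ((u ^ 4 : ℤ) : ℝ) = 1 := by rw [u1]; norm_num
        push_cast at this
        rw [this, abs_one]
      exact (pow_eq_one_iff_of_nonneg (abs_nonneg _) (by norm_num)).1 h3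
    rw [Int.cast_zero, mul_zero, add_zero, abs_div, h2, abs_of_pos hτ, le_div_iff₀ hτ] at h1
    exact h1
  have hd : |((t : ℝ) - t') * α / (3 * τ)| ≤ 10 * S := by
    have a1 := h.d1
    have a2 := h.d2
    have b1 := h'.d1
    have b2 := h'.d2
    rw [s1] at a1 a2
    rw [s2] at b1 b2
    have e : ((t : ℝ) - t') * α / (3 * τ) = (-(2 * ω * (1 : ℤ)) / (3 * α * τ) + t * α / (3 * τ)) -
        (-(2 * ω * (1 : ℤ)) / (3 * α * τ) + t' * α / (3 * τ)) := by ring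
    rw [e, abs_le]
    constructor <;> linarith
  have ht : (1 : ℝ) ≤ |(t : ℝ) - t'| := by
    have h3 : (1 : ℤ) ≤ |t - t'| := Int.one_le_abs (sub_ne_zero.2 hne)
    exact_mod_cast h3
  rw [abs_div, abs_mul, abs_of_pos hα0, abs_of_pos (by positivity : (0 : ℝ) < 3 * τ),
    div_le_iff₀ (by positivity)] at hd
  have h5 : (α : ℝ) ≤ 10 * S * (3 * τ) := by
    refine le_trans ?_ hd
    calc (α : ℝ) = 1 * α := (one_mul _).symm
      _ ≤ _ := mul_le_mul_of_nonneg_right ht hα0.le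
  have h6 : Δ * Q ^ 4 ≤ 30 * S := by
    have h7 : (Q * τ) ^ 4 ≤ 1 := pow_le_one₀ (by positivity) hQ1
    have h8 : Δ * Q ^ 4 * τ = α * (Q * τ) ^ 4 := by rw [hΔ]; ring
    have h9 : Δ * Q ^ 4 * τ ≤ 30 * S * τ := by
      rw [h8]
      calc (α : ℝ) * (Q * τ) ^ 4 ≤ α * 1 := mul_le_mul_of_nonneg_left h7 hα0.le
        _ ≤ 30 * S * τ := by linarith
    exact le_of_mul_le_mul_right h9 hτ
  linarith

end Pool.Agent.Work.MP_f2148a_nt.M56.G3
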