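import Pool.Agent.Work.MP_f2148a_nt.M56.G3.Small

set_option autoImplicit false

/-!
# MP_f2148a_nt, block G3 (B1a): the integer `∇g(P)` bounds the norm of `g~` from below (all proved)

`nabla_le`: at a point of the box on `g = 0`,
`|D_e g(P)| ≤ 8748 Δ³ |⟨(s,t),e⟩| |d₂|^(m+1) |ξ|^n 2^m (4m+n) cost · nrm ρ g₀ g~`.
-/

namespace Pool.Agent.Work.MP_f2148a_nt.M56.G3

open G4 LD MvPolynomial

/-- the inclusion `ℝ[r, γ] → ℝ[r, γ, π]` -/
noncomputable def inc : LD.A →ₐ[ℝ] MvPolynomial (Fin 3) ℝ := aeval ![X 0, X 1]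

theorem wn_inc {ρ g : ℝ} (hρ : 0 ≤ ρ) (hg : 0 ≤ g) (F : LD.A) :
    wn (w3 ρ g) (inc F) ≤ nrm ρ g F := by
  have hw : ∀ i, 0 ≤ w3 ρ g i := by
    intro i
    fin_cases i
    · exact hρ
    · exact hg
    · exact zero_le_two
  have h1 : inc F = ∑ x ∈ F.support, inc (monomial x (F.coeff x)) := by
    conv_lhs => rw [F.as_sum]
    rw [map_sum]
  rw [h1, nrm]
  refine (wn_sum hw _ _).trans (Finset.sum_le_sum fun x _ => ?_)
  rw [inc, aeval_monomial, Finsupp.prod_fintype _ _ (fun i => pow_zero _), Fin.prod_univ_two]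
  have h2 : wn (w3 ρ g) ((X 0 : MvPolynomial (Fin 3) ℝ) ^ x 0 * X 1 ^ x 1) ≤
      ρ ^ x 0 * g ^ x 1 := bd_mul hw (bd_pow hw (bd_X rfl) _) (bd_pow hw (bd_X rfl) _)
  exact bd_mul hw (bd_am _ le_rfl) h2

theorem td_inc {F : LD.A} {d : ℕ} (h : F.totalDegree ≤ d) : (inc F).totalDegree ≤ d := by
  have h1 : inc F = ∑ x ∈ F.support, inc (monomial x (F.coeff x)) := by
    conv_lhs => rw [F.as_sum]
    rw [map_sum]
  rw [h1]
  refine totalDegree_finsetSum_le fun x hx => ?_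
  rw [inc, aeval_monomial, Finsupp.prod_fintype _ _ (fun i => pow_zero _), Fin.prod_univ_two]
  have h2 : x.degree ≤ F.totalDegree := le_totalDegree hx
  have h3 : x.degree = x 0 + x 1 := by
    rw [Finsupp.degree_eq_sum, Fin.sum_univ_two]
  refine td_mul (a := 0) (b := x 0 + x 1) (td_am _) ?_ (by omega)
  exact td_mul (a := x 0) (b := x 1) (td_pow (a := 1) _ (td_X _ le_rfl) (by omega))
    (td_pow (a := 1) _ (td_X _ le_rfl) (by omega)) le_rfl

theorem td_psi (l c : ℝ) (m n : ℕ) (G : Polynomial (Polynomial ℝ)) :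
    (psi (U1 l c) (U2 l c) m n G).totalDegree ≤ 4 * m + n := by
  have hU1 : (U1 l c).totalDegree ≤ 4 := by
    unfold U1 pb
    refine td_sub (td_X _ (by norm_num)) (td_add (td_sub ?_ ?_) ?_)
    · exact td_mul (a := 0) (b := 1) (td_num 2) (td_X _ le_rfl) (by norm_num)
    · exact td_mul (a := 0) (b := 4) (td_am _) (td_pow (a := 1) 4 (td_X _ le_rfl) (by norm_num))
        (by norm_num)
    · rw [zero_mul, totalDegree_zero]
      exact Nat.zero_le _
  have hU2 : (U2 l c).totalDegree ≤ 4 := by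
    unfold U2 pa
    refine td_sub (td_sub (td_sub ?_ ?_) ?_) ?_
    · rw [totalDegree_one]
      exact Nat.zero_le _
    · exact td_mul (a := 0) (b := 2) (td_mul (a := 0) (b := 0) (td_num 6) (td_am _) le_rfl)
        (td_pow (a := 1) 2 (td_X _ le_rfl) (by norm_num)) (by norm_num)
    · exact td_mul (a := 0) (b := 3) (td_mul (a := 0) (b := 0) (td_num 2) (td_am _) le_rfl)
        (td_pow (a := 1) 3 (td_X _ le_rfl) (by norm_num)) (by norm_num)
    · exact td_mul (a := 0) (b := 4) (td_mul (a := 0) (b := 0) (td_num 3)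
        (td_pow (a := 0) 2 (td_am _) (by norm_num)) le_rfl)
        (td_pow (a := 1) 4 (td_X _ le_rfl) (by norm_num)) (by norm_num)
  rw [psi, LD.ev]
  refine totalDegree_finsetSum_le fun e _ => ?_
  have h1 := e.1.2
  have h2 := e.2.2
  refine td_mul (a := 0) (b := 4 * m + n) (td_am _) ?_ (by omega)
  rw [mon, one_pow, one_mul]
  refine td_mul (a := 4 * m) (b := n) ?_ (td_pow (a := 1) _ (td_X _ le_rfl) (by omega)) le_rfl
  exact td_mul (a := e.1 * 4) (b := (m - e.1) * 4) (td_pow _ hU1 le_rfl) (td_pow _ hU2 le_rfl)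
    (by omega)

/-- First order part: `V4` of a form that vanishes at the point, in the small variables. -/
theorem V_small {l c ρ g₀ d₁ d₂ ξ υ : ℝ} (hl : |l| ≤ 1) (hc : |c| ≤ 1) (hρ : 0 < ρ)
    (hρ1 : ρ ≤ 1 / 5) (hg : 0 ≤ g₀) (hg1 : g₀ ≤ 1) (h2 : d₂ ≠ 0) (hξ : ξ ≠ 0)
    (hr : |υ / ξ| ≤ ρ) (hu : |d₁ / d₂ * pa l c (υ / ξ) + pb l c (υ / ξ)| ≤ g₀)
    (hp : 1 / 2 ≤ pa l c (υ / ξ)) (m n : ℕ) (G : Polynomial (Polynomial ℝ))
    (h0 : LD.ev m n G d₁ d₂ ξ υ = 0) (e₁ e₂ : ℝ) :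
    |aeval ![d₁, d₂, ξ, υ] (V4 l c e₁ e₂ (fR m n G))| ≤
      |d₁ * e₂ - d₂ * e₁| * (|d₂| ^ (m + 1) * |ξ| ^ n) * (2 ^ m * (cost c ρ g₀ * (4 * m + n : ℕ) *
        nrm ρ g₀ (psi (U1 l c) (U2 l c) m n G))) := by
  obtain ⟨C, hC1, hC2⟩ := rel l c e₁ e₂ d₁ d₂ ξ υ h2 hξ m n
  obtain ⟨u, hu'⟩ : ∃ u, u = d₁ / d₂ := ⟨_, rfl⟩
  obtain ⟨r, hr'⟩ : ∃ r, r = υ / ξ := ⟨_, rfl⟩
  rw [← hu', ← hr'] at hu
  rw [← hr'] at hr hp
  have hp0 : pa l c r ≠ 0 := by linarith
  -- the dehomogenized form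
  set g2 : MvPolynomial (Fin 2) ℝ := ∑ e : E m n, algebraMap ℝ _ (cf G e) *
    (X 0 ^ (e.1 : ℕ) * X 1 ^ (n - e.2)) with hg2
  have hsum : ∀ (D : Derivation ℝ (MvPolynomial (Fin 4) ℝ) (MvPolynomial (Fin 4) ℝ)),
      D (fR m n G) = ∑ e : E m n, algebraMap ℝ _ (cf G e) *
        D (X 0 ^ (e.1 : ℕ) * X 1 ^ (m - e.1) * (X 2 ^ (n - (n - e.2)) * X 3 ^ (n - e.2))) := by
    intro D
    rw [fR, LD.ev, map_sum]
    refine Finset.sum_congr rfl fun e _ => ?_
    rw [D.leibniz, Derivation.map_algebraMap, smul_zero, add_zero, smul_eq_mul, mon]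
    have : n - (n - (e.2 : ℕ)) = e.2 := by have := e.2.2; omega
    rw [this]
  have hV : aeval ![d₁, d₂, ξ, υ] (V4 l c e₁ e₂ (fR m n G)) =
      C 1 0 * aeval ![u, r] g2 + C 1 1 * aeval ![u, r] (W2 l c g2) := by
    rw [hsum, map_sum, hg2, map_sum, map_sum, map_sum, Finset.mul_sum, Finset.mul_sum,
      ← Finset.sum_add_distrib]
    refine Finset.sum_congr rfl fun e _ => ?_
    have h3 := hC2 1 e.1 (n - e.2) (by have := e.1.2; omega) (by omega)
    rw [Finset.sum_range_succ, Finset.sum_range_one, ← hu', ← hr'] at h3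
    simp only [Function.iterate_one, Function.iterate_zero, id_eq] at h3
    obtain ⟨Q, hQ⟩ : ∃ Q : MvPolynomial (Fin 2) ℝ, Q = X 0 ^ (e.1 : ℕ) * X 1 ^ (n - e.2) :=
      ⟨_, rfl⟩
    rw [← hQ] at h3 ⊢
    have h6 : aeval ![u, r] (algebraMap ℝ (MvPolynomial (Fin 2) ℝ) (cf G e) * Q) =
        cf G e * aeval ![u, r] Q := by
      rw [map_mul, AlgHom.commutes]
      rfl
    have h7 : aeval ![u, r] (W2 l c (algebraMap ℝ (MvPolynomial (Fin 2) ℝ) (cf G e) * Q)) =
        cf G e * aeval ![u, r] (W2 l c Q) := by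
      rw [(W2 l c).leibniz, Derivation.map_algebraMap, smul_zero, add_zero, smul_eq_mul, map_mul,
        AlgHom.commutes]
      rfl
    rw [map_mul, AlgHom.commutes, h3, h6, h7]
    change cf G e * _ = _
    ring
  -- `g2` vanishes at the point
  have hz : aeval ![u, r] g2 = 0 := by
    have h3 : LD.ev m n G d₁ d₂ ξ υ = d₂ ^ m * ξ ^ n * LD.ev m n G u 1 1 r := by
      rw [← ev_homog, hu', hr']
      congr 1
      · field_simp
      · rw [mul_one]
      · rw [mul_one]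
      · field_simp
    rw [h0] at h3
    have h4 : LD.ev m n G u 1 1 r = 0 := by
      have h5 : d₂ ^ m * ξ ^ n ≠ 0 := mul_ne_zero (pow_ne_zero _ h2) (pow_ne_zero _ hξ)
      rcases mul_eq_zero.1 h3.symm with h6 | h6
      · exact absurd h6 h5
      · exact h6
    rw [← h4, hg2, map_sum, LD.ev]
    refine Finset.sum_congr rfl fun e _ => ?_
    rw [map_mul, map_mul, map_pow, map_pow, aeval_X, aeval_X, AlgHom.commutes, mon, one_pow,
      one_pow, one_mul, mul_one]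
    rfl
  -- the functional
  set P : Fin 3 → ℝ := ![r, u * pa l c r + pb l c r, (pa l c r)⁻¹] with hP
  have hW : aeval ![u, r] (W2 l c g2) = (pa l c r)⁻¹ ^ m *
      aeval P (W3 l c (inc (psi (U1 l c) (U2 l c) m n G))) := by
    set F := psi (U1 l c) (U2 l c) m n G with hF
    have hF0 : aeval P (inc F) = 0 := by
      have h3 : aeval P (inc F) = at2 r (u * pa l c r + pb l c r) F := by
        rw [at2, inc, ← MvPolynomial.aeval_eq_eval, ← AlgHom.comp_apply]
        congr 1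
        refine algHom_ext fun i => ?_
        rw [AlgHom.comp_apply, aeval_X, aeval_X]
        fin_cases i
        · change aeval P (X 0) = r
          rw [aeval_X]
          rfl
        · change aeval P (X 1) = u * pa l c r + pb l c r
          rw [aeval_X]
          rfl
      have h4 := ev_small (d₁ := d₁) l c m n G h2 hξ (by rw [← hr']; exact hp0)
      rw [h0, ← hr', ← hu'] at h4
      have h5 : (d₂ / pa l c r) ^ m * ξ ^ n ≠ 0 :=
        mul_ne_zero (pow_ne_zero _ (div_ne_zero h2 hp0)) (pow_ne_zero _ hξ)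
      rw [h3]
      rcases mul_eq_zero.1 h4.symm with h6 | h6
      · exact absurd h6 h5
      · exact h6
    have h3 : aeval ![u, r] (W2 l c g2) = Phi l c P m 1 (∑ e : E m n, cf G e •
        ((X 0 - pb (algebraMap ℝ _ l) (algebraMap ℝ _ c) (X 1)) ^ (e.1 : ℕ) *
          pa (algebraMap ℝ _ l) (algebraMap ℝ _ c) (X 1) ^ (m - e.1) * X 1 ^ (n - e.2))) := by
      rw [hg2, map_sum, map_sum, map_sum]
      refine Finset.sum_congr rfl fun e _ => ?_
      have h4 := entry_eq l c u r hp0 m 1 e.1 (n - e.2) (by have := e.1.2; omega)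
      rw [Function.iterate_one] at h4
      rw [(W2 l c).leibniz, Derivation.map_algebraMap, smul_zero, add_zero, smul_eq_mul, map_mul,
        AlgHom.commutes, h4, map_smul, smul_eq_mul]
      rfl
    rw [h3, Phi_apply, Function.iterate_one]
    have h5 : aeval ![(X 1 : MvPolynomial (Fin 3) ℝ), X 0] (∑ e : E m n, cf G e •
        ((X 0 - pb (algebraMap ℝ (MvPolynomial (Fin 2) ℝ) l) (algebraMap ℝ _ c) (X 1)) ^
          (e.1 : ℕ) * pa (algebraMap ℝ _ l) (algebraMap ℝ _ c) (X 1) ^ (m - e.1) *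
          X 1 ^ (n - e.2))) = inc F := by
      have t1 : aeval ![(X 1 : MvPolynomial (Fin 3) ℝ), X 0] (X 1 : MvPolynomial (Fin 2) ℝ) =
          X 0 := by
        rw [aeval_X]
        rfl
      have t0 : aeval ![(X 1 : MvPolynomial (Fin 3) ℝ), X 0] (X 0 : MvPolynomial (Fin 2) ℝ) =
          X 1 := by
        rw [aeval_X]
        rfl
      have i0 : inc (X 0) = X 0 := by
        rw [inc, aeval_X]
        rfl
      have i1 : inc (X 1) = X 1 := by
        rw [inc, aeval_X]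
        rfl
      rw [hF, psi, ev_algHom, LD.ev, map_sum]
      refine Finset.sum_congr rfl fun e _ => ?_
      have t2 : aeval ![(X 1 : MvPolynomial (Fin 3) ℝ), X 0]
          (pb (algebraMap ℝ (MvPolynomial (Fin 2) ℝ) l) (algebraMap ℝ _ c) (X 1)) =
          pb (algebraMap ℝ _ l) (algebraMap ℝ _ c) (X 0) := by
        have h := map_pb ((aeval ![(X 1 : MvPolynomial (Fin 3) ℝ), X 0] :
          MvPolynomial (Fin 2) ℝ →ₐ[ℝ] MvPolynomial (Fin 3) ℝ) :
          MvPolynomial (Fin 2) ℝ →+* MvPolynomial (Fin 3) ℝ) (algebraMap ℝ _ l)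
          (algebraMap ℝ _ c) (X 1)
        simp only [RingHom.coe_coe, AlgHom.commutes, t1] at h
        exact h
      have t3 : aeval ![(X 1 : MvPolynomial (Fin 3) ℝ), X 0]
          (pa (algebraMap ℝ (MvPolynomial (Fin 2) ℝ) l) (algebraMap ℝ _ c) (X 1)) =
          pa (algebraMap ℝ _ l) (algebraMap ℝ _ c) (X 0) := by
        have h := map_pa ((aeval ![(X 1 : MvPolynomial (Fin 3) ℝ), X 0] :
          MvPolynomial (Fin 2) ℝ →ₐ[ℝ] MvPolynomial (Fin 3) ℝ) :
          MvPolynomial (Fin 2) ℝ →+* MvPolynomial (Fin 3) ℝ) (algebraMap ℝ _ l)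
          (algebraMap ℝ _ c) (X 1)
        simp only [RingHom.coe_coe, AlgHom.commutes, t1] at h
        exact h
      have i2 : inc (U2 l c) = pa (algebraMap ℝ _ l) (algebraMap ℝ _ c) (X 0) := by
        have h := map_pa (inc : LD.A →+* MvPolynomial (Fin 3) ℝ) (algebraMap ℝ _ l)
          (algebraMap ℝ _ c) (X 0)
        simp only [RingHom.coe_coe, AlgHom.commutes, i0] at h
        exact h
      have i3 : inc (U1 l c) = X 1 - pb (algebraMap ℝ _ l) (algebraMap ℝ _ c) (X 0) := by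
        have h := map_pb (inc : LD.A →+* MvPolynomial (Fin 3) ℝ) (algebraMap ℝ _ l)
          (algebraMap ℝ _ c) (X 0)
        simp only [RingHom.coe_coe, AlgHom.commutes, i0] at h
        rw [U1, map_sub, h, i1]
      rw [map_smul, map_mul, map_mul, map_pow, map_pow, map_pow, map_sub, t0, t2, t3, t1, i2, i3,
        i0, map_one, mon, one_pow, one_mul, Algebra.smul_def]
    rw [h5, (W3 l c).leibniz, map_add, smul_eq_mul, smul_eq_mul, map_mul, map_mul, hF0, zero_mul,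
      add_zero, map_pow, aeval_X]
    rfl
  have hρ0 : 0 ≤ ρ := hρ.le
  have hPb : ∀ i, |P i| ≤ w3 ρ g₀ i := by
    intro i
    fin_cases i
    · exact hr
    · exact hu
    · change |(pa l c r)⁻¹| ≤ 2
      rw [abs_of_pos (by positivity)]
      calc (pa l c r)⁻¹ ≤ (1 / 2)⁻¹ := inv_anti₀ (by norm_num) hp
        _ = 2 := by norm_num
  have hw := w3_nonneg hρ hg
  have hcost : 0 ≤ cost c ρ g₀ := by linarith [cost_ge (c := c) hρ hg]
  have hb1 : |aeval P (W3 l c (inc (psi (U1 l c) (U2 l c) m n G)))| ≤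
      cost c ρ g₀ * (4 * m + n : ℕ) * nrm ρ g₀ (psi (U1 l c) (U2 l c) m n G) := by
    have h3 := abs_eval_le hPb (W3 l c (inc (psi (U1 l c) (U2 l c) m n G)))
    rw [← MvPolynomial.aeval_eq_eval] at h3
    refine h3.trans ((wn_derivation hw hcost (W3 l c) (wn_W3 hl hc hρ hρ1 hg hg1) _
      (td_inc (td_psi l c m n G))).trans ?_)
    exact mul_le_mul_of_nonneg_left (wn_inc hρ0 hg _) (by positivity)
  have hb2 : |(pa l c r)⁻¹ ^ m| ≤ 2 ^ m := by
    rw [abs_pow]
    exact pow_le_pow_left₀ (abs_nonneg _) (hPb 2) m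
  rw [hV, hz, mul_zero, zero_add, hC1, hW, pow_one, abs_mul]
  have e1 : |(d₁ * e₂ - d₂ * e₁) * d₂ * (d₂ ^ m * ξ ^ n)| =
      |d₁ * e₂ - d₂ * e₁| * (|d₂| ^ (m + 1) * |ξ| ^ n) := by
    rw [abs_mul, abs_mul, abs_mul, abs_pow, abs_pow]
    ring
  rw [e1]
  refine mul_le_mul_of_nonneg_left ?_ (by positivity)
  rw [abs_mul]
  exact mul_le_mul hb2 hb1 (abs_nonneg _) (by positivity)

end Pool.Agent.Work.MP_f2148a_nt.M56.G3
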