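import Pool.Agent.Work.MP_f2148a_nt.M56.LD.Defs

set_option autoImplicit false

/-!
# MP_f2148a_nt, block G3: evaluation of the real form `rl` in any algebra (all proved)
-/

namespace Pool.Agent.Work.MP_f2148a_nt.M56.G3

open Polynomial LD

section hom

variable {R S : Type*} [CommRing R] [CommRing S] [Algebra R S]

/-- `∑ p_i x^i y^(a-i)` -/
noncomputable def hom (a : ℕ) (p : R[X]) (x y : S) : S :=
  MvPolynomial.aeval ![x, y] (p.homogenize a)

theorem hom_eq_sum (a : ℕ) (p : R[X]) (x y : S) :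
    hom a p x y = ∑ i : Fin (a + 1), algebraMap R S (p.coeff i) * (x ^ (i : ℕ) * y ^ (a - i)) := by
  rw [hom, homogenize, map_sum, Finset.Nat.sum_antidiagonal_eq_sum_range_succ_mk,
    Finset.sum_range]
  refine Finset.sum_congr rfl fun i _ => ?_
  rw [MvPolynomial.aeval_monomial, Finsupp.update_eq_add_single (by simp),
    Finsupp.prod_add_index' (fun _ => pow_zero _) fun _ _ _ => pow_add _ _ _]
  simp only [Finsupp.prod_single_index, pow_zero]
  rfl

theorem hom_mul {a b : ℕ} {p q : R[X]} (hp : p.natDegree ≤ a) (hq : q.natDegree ≤ b) (x y : S) :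
    hom (a + b) (p * q) x y = hom a p x y * hom b q x y := by
  rw [hom, homogenize_mul p q hp hq, map_mul]
  rfl

theorem hom_pow {p : R[X]} (hp : p.natDegree ≤ 1) (i : ℕ) (x y : S) :
    hom i (p ^ i) x y = hom 1 p x y ^ i := by
  induction i with
  | zero =>
    rw [pow_zero, pow_zero, hom_eq_sum, Fin.sum_univ_one]
    simp
  | succ i ih =>
    rw [pow_succ, pow_succ, ← ih, hom_mul ?_ hp]
    exact natDegree_pow_le.trans (by simpa using Nat.mul_le_mul_left i hp)

theorem hom_lin (c d : R) (x y : S) :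
    hom 1 (C c * X + C d) x y = algebraMap R S c * x + algebraMap R S d * y := by
  rw [hom_eq_sum, Fin.sum_univ_two]
  simp only [Fin.coe_ofNat_eq_mod, Nat.zero_mod, Nat.mod_succ, coeff_add, coeff_C_mul, coeff_X,
    coeff_C]
  simp
  ring

theorem hom_two (c₁ c₂ c₃ c₄ : R) {i k a : ℕ} (h : i + k = a) (x y : S) :
    hom a ((C c₁ * X + C c₂) ^ i * (C c₃ * X + C c₄) ^ k) x y =
      (algebraMap R S c₁ * x + algebraMap R S c₂ * y) ^ i *
      (algebraMap R S c₃ * x + algebraMap R S c₄ * y) ^ k := by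
  subst h
  have hl : ∀ c d : R, (C c * X + C d : R[X]).natDegree ≤ 1 := fun c d => natDegree_linear_le
  have hpw : ∀ (c d : R) (i : ℕ), ((C c * X + C d : R[X]) ^ i).natDegree ≤ i := fun c d i =>
    natDegree_pow_le.trans (by simpa using Nat.mul_le_mul_left i (hl c d))
  rw [hom_mul (hpw _ _ _) (hpw _ _ _), hom_pow (hl _ _), hom_pow (hl _ _), hom_lin, hom_lin]

end hom

section ev

variable {R S : Type*} [CommRing R] [CommRing S] [Algebra R S]

theorem ev_prod (a b : ℕ) (p q : R[X]) (s t u v : S) :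
    ev a b (C p * q.map C) s t u v = hom a p s t * hom b q u v := by
  rw [ev, hom_eq_sum, hom_eq_sum, Finset.sum_mul_sum, Fintype.sum_prod_type]
  refine Finset.sum_congr rfl fun i _ => Finset.sum_congr rfl fun j _ => ?_
  have h1 : cf (C p * q.map C) (i, j) = p.coeff i * q.coeff j := by
    rw [cf, coeff_C_mul, coeff_map, coeff_mul_C]
  rw [h1, map_mul, mon]
  ring

theorem ev_sum {ι : Type*} (w : Finset ι) (a b : ℕ) (f : ι → R[X][X]) (s t u v : S) :
    ev a b (∑ i ∈ w, f i) s t u v = ∑ i ∈ w, ev a b (f i) s t u v := by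
  unfold ev
  rw [Finset.sum_comm]
  refine Finset.sum_congr rfl fun e _ => ?_
  rw [← Finset.sum_mul, ← map_sum]
  congr 2
  unfold cf
  rw [finsetSum_coeff, finsetSum_coeff]

theorem ev_smulC (a b : ℕ) (c : R) (f : R[X][X]) (s t u v : S) :
    ev a b (C (C c) * f) s t u v = algebraMap R S c * ev a b f s t u v := by
  unfold ev
  rw [Finset.mul_sum]
  refine Finset.sum_congr rfl fun e _ => ?_
  unfold cf
  rw [coeff_C_mul, coeff_C_mul, map_mul, mul_assoc]

end ev

/-- Evaluation of the real form in any real algebra. -/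
theorem ev_rl {S : Type*} [CommRing S] [Algebra ℝ S] (F : Frame) (a b : ℕ) (f : ℤ[X][X])
    (d₁ d₂ ξ υ : S) :
    ev a b (rl F a b f) d₁ d₂ ξ υ = ev a b f (algebraMap ℝ S F.e₁ * d₁)
      (algebraMap ℝ S F.e₂ * d₁ + algebraMap ℝ S F.e₃ * d₂)
      (algebraMap ℝ S F.k₁ * ξ + algebraMap ℝ S F.k₂ * υ) (algebraMap ℝ S F.k₃ * υ) := by
  have h0 : rl F a b f = ∑ e : E a b, algebraMap ℤ ℝ[X][X] (cf f e) *
    mon a b (C (C F.e₁ * X) : ℝ[X][X]) (C (C F.e₂ * X + C F.e₃))
      (C (C F.k₁) * X + C (C F.k₂)) (C (C F.k₃)) e := rfl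
  rw [h0, ev_sum]
  conv_rhs => rw [ev]
  refine Finset.sum_congr rfl fun e _ => ?_
  have h1 : algebraMap ℤ ℝ[X][X] (cf f e) = C (C ((cf f e : ℤ) : ℝ)) := by
    simp
  have h2 : mon a b (C (C F.e₁ * X) : ℝ[X][X]) (C (C F.e₂ * X + C F.e₃))
      (C (C F.k₁) * X + C (C F.k₂)) (C (C F.k₃)) e =
      C ((C F.e₁ * X + C 0) ^ (e.1 : ℕ) * (C F.e₂ * X + C F.e₃) ^ (a - e.1)) *
        ((C F.k₁ * X + C F.k₂) ^ (e.2 : ℕ) * (C 0 * X + C F.k₃) ^ (b - e.2)).map C := by
    simp only [mon, Polynomial.map_mul, Polynomial.map_pow, Polynomial.map_add, map_C, map_X,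
      map_mul, map_pow, map_add, map_zero, add_zero, zero_mul, zero_add]
  have ha : (e.1 : ℕ) + (a - e.1) = a := by have := e.1.2; omega
  have hb : (e.2 : ℕ) + (b - e.2) = b := by have := e.2.2; omega
  rw [h1, ev_smulC, h2, ev_prod, hom_two _ _ _ _ ha, hom_two _ _ _ _ hb, mon]
  simp only [map_zero, zero_mul, add_zero, zero_add]
  congr 1
  simp

end Pool.Agent.Work.MP_f2148a_nt.M56.G3
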