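import Pool.Agent.Work.MP_f2148a_nt.M56.G3.Real
import Pool.Agent.Work.MP_f2148a_nt.M56.G3.Der
import Pool.Agent.Work.MP_f2148a_nt.M56.G4.Rows

set_option autoImplicit false

/-!
# MP_f2148a_nt, block G3: the frame and the small variables (all proved)

`frm` is the frame of the reference data; `U₁ = γ - p₂(r)`, `U₂ = p₁(r)`.
`ev_small`: `G(d₁,d₂;ξ,υ) = (d₂/p₁(r))^a ξ^b (psi U₁ U₂ a b G)(r, γ)`.
-/

namespace Pool.Agent.Work.MP_f2148a_nt.M56.G3

open G4 LD

/-- The frame of the reference data. -/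
noncomputable def frm (α ω τ : ℝ) : Frame where
  e₁ := 3 * α / τ
  e₂ := 6 * ω / (α * τ)
  e₃ := 3 * τ / α
  k₁ := τ
  k₂ := -ω / τ
  k₃ := 1 / τ

theorem frm_uni {α ω τ : ℝ} (hα : α ≠ 0) (hτ : τ ≠ 0) : (frm α ω τ).Uni where
  he := by
    change 3 * α / τ * (3 * τ / α) = 9
    field_simp
    ring
  hk := by
    change τ * (1 / τ) = 1
    field_simp

/-- `γ - p₂(r)` -/
noncomputable def U1 (l c : ℝ) : LD.A :=
  MvPolynomial.X 1 - pb (algebraMap ℝ _ l) (algebraMap ℝ _ c) (MvPolynomial.X 0)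

/-- `p₁(r)` -/
noncomputable def U2 (l c : ℝ) : LD.A :=
  pa (algebraMap ℝ _ l) (algebraMap ℝ _ c) (MvPolynomial.X 0)

section ev

variable {R S T : Type*} [CommRing R] [CommRing S] [CommRing T] [Algebra R S] [Algebra R T]

theorem ev_algHom (φ : S →ₐ[R] T) (a b : ℕ) (f : Polynomial (Polynomial R)) (s t u v : S) :
    φ (LD.ev a b f s t u v) = LD.ev a b f (φ s) (φ t) (φ u) (φ v) := by
  rw [LD.ev, map_sum, LD.ev]
  refine Finset.sum_congr rfl fun e _ => ?_
  simp only [map_mul, AlgHom.commutes, mon, map_pow]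

theorem ev_homog (a b : ℕ) (f : Polynomial (Polynomial R)) (κ θ s t u v : S) :
    LD.ev a b f (κ * s) (κ * t) (θ * u) (θ * v) = κ ^ a * θ ^ b * LD.ev a b f s t u v := by
  rw [LD.ev, LD.ev, Finset.mul_sum]
  refine Finset.sum_congr rfl fun e _ => ?_
  have h1 : κ ^ a = κ ^ (e.1 : ℕ) * κ ^ (a - e.1) := by
    rw [← pow_add]
    congr 1
    have := e.1.2
    omega
  have h2 : θ ^ b = θ ^ (e.2 : ℕ) * θ ^ (b - e.2) := by
    rw [← pow_add]
    congr 1
    have := e.2.2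
    omega
  simp only [mon, mul_pow, h1, h2]
  ring

end ev

/-- Evaluation through the small variables. -/
theorem ev_small (l c : ℝ) (a b : ℕ) (G : Polynomial (Polynomial ℝ)) {d₁ d₂ ξ υ : ℝ}
    (h2 : d₂ ≠ 0) (hξ : ξ ≠ 0) (hp : pa l c (υ / ξ) ≠ 0) :
    LD.ev a b G d₁ d₂ ξ υ = (d₂ / pa l c (υ / ξ)) ^ a * ξ ^ b *
      at2 (υ / ξ) (d₁ / d₂ * pa l c (υ / ξ) + pb l c (υ / ξ)) (psi (U1 l c) (U2 l c) a b G) := by
  set r := υ / ξ with hr
  have h0 : at2 r (d₁ / d₂ * pa l c r + pb l c r) (psi (U1 l c) (U2 l c) a b G) =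
      LD.ev a b G (d₁ / d₂ * pa l c r) (pa l c r) 1 r := by
    set z : Fin 2 → ℝ := ![r, d₁ / d₂ * pa l c r + pb l c r] with hz
    have e1 : ∀ F : LD.A, at2 r (d₁ / d₂ * pa l c r + pb l c r) F =
        (MvPolynomial.aeval z : LD.A →ₐ[ℝ] ℝ) F := by
      intro F
      rw [at2, MvPolynomial.aeval_eq_eval]
    rw [e1, psi, ev_algHom]
    have hX : (MvPolynomial.aeval z : LD.A →ₐ[ℝ] ℝ) (MvPolynomial.X 0) = r := by
      rw [MvPolynomial.aeval_X]
      rfl
    have hX1 : (MvPolynomial.aeval z : LD.A →ₐ[ℝ] ℝ) (MvPolynomial.X 1) =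
        d₁ / d₂ * pa l c r + pb l c r := by
      rw [MvPolynomial.aeval_X]
      rfl
    have hpa : (MvPolynomial.aeval z : LD.A →ₐ[ℝ] ℝ) (U2 l c) = pa l c r := by
      have h := map_pa ((MvPolynomial.aeval z : LD.A →ₐ[ℝ] ℝ) : LD.A →+* ℝ) (algebraMap ℝ _ l)
        (algebraMap ℝ _ c) (MvPolynomial.X 0)
      simp only [RingHom.coe_coe, AlgHom.commutes, hX] at h
      exact h
    have hpb : (MvPolynomial.aeval z : LD.A →ₐ[ℝ] ℝ) (U1 l c) = d₁ / d₂ * pa l c r := by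
      have h := map_pb ((MvPolynomial.aeval z : LD.A →ₐ[ℝ] ℝ) : LD.A →+* ℝ) (algebraMap ℝ _ l)
        (algebraMap ℝ _ c) (MvPolynomial.X 0)
      simp only [RingHom.coe_coe, AlgHom.commutes, hX] at h
      rw [U1, map_sub, h, hX1]
      exact add_sub_cancel_right _ _
    rw [hX, hpa, hpb, map_one]
  rw [h0, ← ev_homog]
  congr 1
  · field_simp
  · field_simp
  · rw [mul_one]
  · rw [hr]
    field_simp

/-- The real form in the polynomial ring. -/
noncomputable def fR (m n : ℕ) (G : Polynomial (Polynomial ℝ)) : MvPolynomial (Fin 4) ℝ :=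
  LD.ev m n G (MvPolynomial.X 0) (MvPolynomial.X 1) (MvPolynomial.X 2) (MvPolynomial.X 3)

/-- The integral form in the polynomial ring. -/
noncomputable def fZ (m n : ℕ) (g : Polynomial (Polynomial ℤ)) : MvPolynomial (Fin 4) ℤ :=
  LD.ev m n g (MvPolynomial.X 0) (MvPolynomial.X 1) (MvPolynomial.X 2) (MvPolynomial.X 3)

theorem map_fZ (m n : ℕ) (g : Polynomial (Polynomial ℤ)) :
    MvPolynomial.map (Int.castRingHom ℝ) (fZ m n g) =
      LD.ev m n g (MvPolynomial.X 0 : MvPolynomial (Fin 4) ℝ) (MvPolynomial.X 1)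
        (MvPolynomial.X 2) (MvPolynomial.X 3) := by
  rw [fZ, LD.ev, LD.ev, map_sum]
  refine Finset.sum_congr rfl fun e _ => ?_
  simp only [map_mul, mon, map_pow, MvPolynomial.map_X]
  congr 1
  simp

theorem eval_fZ (m n : ℕ) (g : Polynomial (Polynomial ℤ)) (s t u v : ℤ) :
    MvPolynomial.eval ![s, t, u, v] (fZ m n g) = LD.ev m n g s t u v := by
  rw [fZ, LD.ev, LD.ev, map_sum]
  refine Finset.sum_congr rfl fun e _ => ?_
  simp only [map_mul, mon, map_pow, MvPolynomial.eval_X]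
  simp

theorem sub_fR {α ω τ : ℝ} (hα : α ≠ 0) (hτ : τ ≠ 0) (m n : ℕ)
    (g : Polynomial (Polynomial ℤ)) :
    sub α ω τ (fR m n (rl (frm α ω τ) m n g)) =
      MvPolynomial.map (Int.castRingHom ℝ) (fZ m n g) := by
  rw [map_fZ, fR, ev_algHom, ev_rl, sub_zero', sub_one', sub_two', sub_three']
  have hC : ∀ x : ℝ, algebraMap ℝ (MvPolynomial (Fin 4) ℝ) x = MvPolynomial.C x := fun x => rfl
  simp only [hC, frm]
  congr 1
  · rw [← mul_assoc, ← map_mul]
    have : 3 * α / τ * (τ / (3 * α)) = 1 := by field_simp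
    rw [this, map_one, one_mul]
  · rw [mul_add, ← mul_assoc, ← mul_assoc, ← mul_assoc, ← map_mul, ← map_mul, ← map_mul,
      ← add_assoc, ← add_mul, ← map_add]
    have h1 : 6 * ω / (α * τ) * (τ / (3 * α)) + 3 * τ / α * (-(2 * ω) / (3 * α * τ)) = 0 := by
      field_simp
      ring
    have h2 : 3 * τ / α * (α / (3 * τ)) = 1 := by field_simp
    rw [h1, h2, map_zero, zero_mul, zero_add, map_one, one_mul]
  · rw [mul_add, ← mul_assoc, ← mul_assoc, ← mul_assoc, ← map_mul, ← map_mul, ← map_mul,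
      add_assoc, ← add_mul, ← map_add]
    have h1 : τ * (ω / τ) + -ω / τ * τ = 0 := by
      field_simp
      ring
    have h2 : τ * (1 / τ) = 1 := by field_simp
    rw [h1, h2, map_zero, zero_mul, add_zero, map_one, one_mul]
  · rw [← mul_assoc, ← map_mul]
    have : 1 / τ * τ = 1 := by field_simp
    rw [this, map_one, one_mul]

end Pool.Agent.Work.MP_f2148a_nt.M56.G3
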