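import Pool.Agent.Work.MP_f2148a_nt.M56.G3.Aff
import Pool.Agent.Work.MP_f2148a_nt.M56.LD.Uni

set_option autoImplicit false
set_option linter.unusedSimpArgs false

/-!
# MP_f2148a_nt, block G3 (B1b): few points of a curve with `nab = 0` (all proved, uses `LD.bez`)

`nab_affine`: `nab` in the direction `(1,0)` in affine coordinates.
`nab_lin`: `t nab_(e,f) = -(s f - t e) nab_(1,0)` at points of `g = 0`.
`card_le_of_nab`: at most `n (m+2) + m (n+1) + n` points.
-/

namespace Pool.Agent.Work.MP_f2148a_nt.M56.G3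

open Polynomial

/-- `nab` is additive in the form. -/
theorem nab_sum {ι : Type*} (T : Finset ι) (x y α β e f : ℤ) (m n : ℕ) (w : ι → ℤ[X][X])
    (s t u v : ℤ) : nab x y α β e f m n (∑ i ∈ T, w i) s t u v =
      ∑ i ∈ T, nab x y α β e f m n (w i) s t u v := by
  unfold nab fZ
  rw [LD.ev_sum, map_sum, map_sum]

theorem evI_C (z : Fin 4 → ℤ) (a : ℤ) : MvPolynomial.eval z (MvPolynomial.C a) = a :=
  MvPolynomial.eval_C a

/-- `nab` of a monomial in the direction `(1, 0)`. -/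
theorem nab_mono (x y α β : ℤ) {m n i j : ℕ} (hi : i ≤ m) (hj : j ≤ n) (c s t u v : ℤ) :
    nab x y α β 1 0 m n (monomial j (monomial i c)) s t u v = c *
      ((i : ℤ) * s ^ (i - 1) * jI x y α β s t * t ^ (m - i) * (u ^ j * v ^ (n - j)) +
      s ^ i * t ^ (m - i) * ((j : ℤ) * u ^ (j - 1) * (27 * t * qY x y α β s t u v) * v ^ (n - j) +
        u ^ j * (((n - j : ℕ) : ℤ) * v ^ (n - j - 1) *
          (-(27 * t * qX x y α β s t u v))))) := by
  unfold nab fZ
  rw [LD.ev_mono hi hj]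
  have e0 : MvPolynomial.eval ![s, t, u, v] (DI x y α β 1 0 (MvPolynomial.X 0)) =
      jI x y α β s t := by
    rw [DI_zero, map_mul, map_jI]
    simp only [MvPolynomial.eval_C, MvPolynomial.eval_X, mul_one]
    rfl
  have e1 : MvPolynomial.eval ![s, t, u, v] (DI x y α β 1 0 (MvPolynomial.X 1)) = 0 := by
    rw [DI_one, map_mul, MvPolynomial.eval_C, mul_zero]
  have e2 : MvPolynomial.eval ![s, t, u, v] (DI x y α β 1 0 (MvPolynomial.X 2)) =
      27 * t * qY x y α β s t u v := by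
    rw [DI_two, map_neg, map_mul, map_mul, map_qY, map_sub, map_mul, map_mul]
    simp only [MvPolynomial.eval_C, MvPolynomial.eval_X, mul_one, mul_zero, zero_sub, map_ofNat]
    change -(27 * -t * qY x y α β s t u v) = _
    ring
  have e3 : MvPolynomial.eval ![s, t, u, v] (DI x y α β 1 0 (MvPolynomial.X 3)) =
      -(27 * t * qX x y α β s t u v) := by
    rw [DI_three, map_mul, map_mul, map_qX, map_sub, map_mul, map_mul]
    simp only [MvPolynomial.eval_C, MvPolynomial.eval_X, mul_one, mul_zero, zero_sub, map_ofNat]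
    change 27 * -t * qX x y α β s t u v = _
    ring
  have v0 : MvPolynomial.eval ![s, t, u, v] (MvPolynomial.X 0) = s := by
    rw [MvPolynomial.eval_X]; rfl
  have v1 : MvPolynomial.eval ![s, t, u, v] (MvPolynomial.X 1) = t := by
    rw [MvPolynomial.eval_X]; rfl
  have v2 : MvPolynomial.eval ![s, t, u, v] (MvPolynomial.X 2) = u := by
    rw [MvPolynomial.eval_X]; rfl
  have v3 : MvPolynomial.eval ![s, t, u, v] (MvPolynomial.X 3) = v := by
    rw [MvPolynomial.eval_X]; rfl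
  have hc0 : DI x y α β 1 0 ((c : MvPolynomial (Fin 4) ℤ)) = 0 := by
    have h := MvPolynomial.derivation_C (DI x y α β 1 0) c
    rwa [eq_intCast] at h
  simp only [Derivation.leibniz, Derivation.leibniz_pow, hc0, smul_eq_mul, map_zero,
    smul_zero, add_zero, nsmul_eq_mul, map_add, map_mul, map_pow, map_natCast, e0, e1, e2, e3, v0,
    v1, v2, v3, mul_zero, MvPolynomial.algebraMap_eq, MvPolynomial.eval_C,
    algebraMap_int_eq, eq_intCast, map_intCast, Int.cast_id]
  ring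

/-- the rational form -/
noncomputable def gQ (g : ℤ[X][X]) : ℚ[X][X] := g.map (mapRingHom (Int.castRingHom ℚ))

theorem gQ_mono (i j : ℕ) (c : ℤ) : gQ (monomial j (monomial i c)) =
    monomial j (monomial i (c : ℚ)) := by
  rw [gQ, map_monomial, coe_mapRingHom, map_monomial]
  rfl

theorem ev_gQ (g : ℤ[X][X]) (s v : ℚ) : G1.ev s v (gQ g) =
    (g.map (eval₂RingHom (algebraMap ℤ ℚ) s)).eval v := by
  rw [G1.ev, gQ, Polynomial.map_map]
  congr 2
  refine ringHom_ext' (Subsingleton.elim _ _) ?_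
  simp

/-- `nab` in the direction `(1, 0)` in affine coordinates. -/
theorem nab_affine (x y α β : ℤ) {m n : ℕ} {g : ℤ[X][X]} (hg : LD.Bd m n g) (s t u v : ℤ)
    (ht : t ≠ 0) (hv : v ≠ 0) : ((nab x y α β 1 0 m n g s t u v : ℤ) : ℚ) =
      (t : ℚ) ^ (m + 2) * (v : ℚ) ^ n * (G1.ev ((s : ℚ) / t) ((u : ℚ) / v)
        (G1.dl (Pp (x : ℚ) y α β) (Bb (x : ℚ) y α β) (gQ g)) -
      27 * n * qX (x : ℚ) y α β ((s : ℚ) / t) 1 ((u : ℚ) / v) 1 *
        G1.ev ((s : ℚ) / t) ((u : ℚ) / v) (gQ g)) := by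
  have ht' : (t : ℚ) ≠ 0 := by exact_mod_cast ht
  have hv' : (v : ℚ) ≠ 0 := by exact_mod_cast hv
  have hadd : ∀ {ι : Type} (T : Finset ι) (w : ι → ℤ[X][X]), gQ (∑ i ∈ T, w i) =
      ∑ i ∈ T, gQ (w i) := by
    intro ι T w
    unfold gQ
    exact Polynomial.map_sum _ _ _
  rw [LD.eq_sum hg, nab_sum, Int.cast_sum, hadd, ← G1.dD_apply, map_sum, ← G1.evH_apply,
    ← G1.evH_apply, map_sum, map_sum, Finset.mul_sum, ← Finset.sum_sub_distrib, Finset.mul_sum]
  refine Finset.sum_congr rfl fun e _ => ?_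
  obtain ⟨i, hi⟩ : ∃ i : ℕ, i = e.1 := ⟨_, rfl⟩
  obtain ⟨j, hj⟩ : ∃ j : ℕ, j = e.2 := ⟨_, rfl⟩
  obtain ⟨c, hc⟩ : ∃ c : ℤ, c = LD.cf g e := ⟨_, rfl⟩
  rw [← hi, ← hj, ← hc]
  have hi' : i ≤ m := by have := e.1.2; omega
  have hj' : j ≤ n := by have := e.2.2; omega
  rw [nab_mono x y α β hi' hj', gQ_mono]
  have hJ := jI_hom (x : ℚ) y α β s t ht'
  have hQ := qI_hom (x : ℚ) y α β s t u v ht' hv'
  have hX := qX_hom (x : ℚ) y α β s t u v ht' hv'
  have hE := q_euler (x : ℚ) y α β s t u v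
  have key := mono_id (jI (x : ℚ) y α β s t) (qI (x : ℚ) y α β s t u v)
    (qX (x : ℚ) y α β s t u v) (qY (x : ℚ) y α β s t u v) (s : ℚ) t u v ht' hv' hE i (m - i) j
    (n - j)
  have r1 : G1.evH ((s : ℚ) / t) ((u : ℚ) / v) (monomial j (monomial i (c : ℚ))) =
      c * ((s : ℚ) / t) ^ i * ((u : ℚ) / v) ^ j := by
    rw [G1.evH_apply, G1.ev, map_monomial, eval_monomial, coe_evalRingHom, eval_monomial]
  have r2 : G1.evH ((s : ℚ) / t) ((u : ℚ) / v) (G1.dD (Pp (x : ℚ) y α β) (Bb (x : ℚ) y α β)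
      (monomial j (monomial i (c : ℚ)))) =
      jI (x : ℚ) y α β (s / t) 1 * (c * i * ((s : ℚ) / t) ^ (i - 1)) * ((u : ℚ) / v) ^ j +
      54 * qI (x : ℚ) y α β (s / t) 1 (u / v) 1 * (c * ((s : ℚ) / t) ^ i * (j *
        ((u : ℚ) / v) ^ (j - 1))) := by
    rw [G1.dD_apply, G1.dl, map_add, map_mul, G1.evH_apply, G1.evH_apply, G1.evH_apply, ev_Bb]
    congr 1
    · have h : G1.dS (Pp (x : ℚ) y α β) (monomial j (monomial i (c : ℚ))) =
          monomial j (Pp (x : ℚ) y α β * monomial (i - 1) ((c : ℚ) * i)) := by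
        refine Polynomial.ext fun k => ?_
        rw [G1.coeff_dS, coeff_monomial, coeff_monomial]
        split_ifs
        · rw [derivative_monomial]
        · rw [derivative_zero, mul_zero]
      rw [h, G1.ev, map_monomial, eval_monomial, coe_evalRingHom, eval_mul, eval_Pp,
        eval_monomial]
    · rw [derivative_monomial, G1.ev, map_monomial, eval_monomial, coe_evalRingHom, eval_mul,
        eval_monomial, eval_natCast]
      ring
  rw [r1, r2]
  have hm : i + (m - i) = m := by omega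
  have hn : j + (n - j) = n := by omega
  rw [hm, hn] at key
  have hn' : (n : ℚ) = (j : ℚ) + ((n - j : ℕ) : ℚ) := by exact_mod_cast hn.symm
  have cJ : ((jI x y α β s t : ℤ) : ℚ) = jI (x : ℚ) y α β s t := by
    have h := map_jI (Int.castRingHom ℚ) x y α β s t
    simpa using h
  have cX : ((qX x y α β s t u v : ℤ) : ℚ) = qX (x : ℚ) y α β s t u v := by
    have h := map_qX (Int.castRingHom ℚ) x y α β s t u v
    simpa using h
  have cY : ((qY x y α β s t u v : ℤ) : ℚ) = qY (x : ℚ) y α β s t u v := by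
    have h := map_qY (Int.castRingHom ℚ) x y α β s t u v
    simpa using h
  push_cast
  rw [cJ, cX, cY, key, hn', hJ, hQ, hX]
  field_simp

/-- the integral version of `dl` -/
noncomputable def dlZ (x y α β : ℤ) (g : ℤ[X][X]) : ℤ[X][X] :=
  (g.sum fun j c => monomial j (jI (C x) (C y) (C α) (C β) X 1 * derivative c)) +
    54 * qI (C (C x)) (C (C y)) (C (C α)) (C (C β)) (C X) 1 X 1 * derivative g

private theorem coeff_sumZ (P : ℤ[X]) (g : ℤ[X][X]) (j : ℕ) :
    (g.sum fun j c => monomial j (P * derivative c)).coeff j = P * derivative (g.coeff j) := by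
  rw [Polynomial.sum_def, finsetSum_coeff]
  simp only [coeff_monomial]
  rw [Finset.sum_ite_eq']
  split_ifs with h
  · rfl
  · rw [notMem_support_iff.1 h]
    simp

theorem gQ_dlZ (x y α β : ℤ) (g : ℤ[X][X]) : gQ (dlZ x y α β g) =
    G1.dl (Pp (x : ℚ) y α β) (Bb (x : ℚ) y α β) (gQ g) := by
  unfold dlZ G1.dl
  have h1 : gQ (g.sum fun j c => monomial j (jI (C x) (C y) (C α) (C β) X 1 * derivative c)) =
      G1.dS (Pp (x : ℚ) y α β) (gQ g) := by
    refine Polynomial.ext fun j => ?_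
    rw [G1.coeff_dS, gQ, gQ, coeff_map, coeff_map, coeff_sumZ, coe_mapRingHom, Polynomial.map_mul,
      Polynomial.derivative_map]
    congr 1
    rw [← coe_mapRingHom, map_jI, Pp]
    simp
  have h2 : gQ (54 * qI (C (C x)) (C (C y)) (C (C α)) (C (C β)) (C X) 1 X 1) =
      Bb (x : ℚ) y α β := by
    unfold gQ Bb
    rw [← coe_mapRingHom]
    simp only [qI, qA, qB, qC, map_sub, map_add, map_neg, map_mul, map_pow, map_one, map_zero,
      map_ofNat]
    simp
  have h3 : gQ (derivative g) = derivative (gQ g) := by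
    unfold gQ
    rw [Polynomial.derivative_map]
  rw [← h1, ← h2, ← h3]
  unfold gQ
  rw [Polynomial.map_add, Polynomial.map_mul]

private theorem bdC (a : ℤ) : LD.Bd 0 0 (C (C a) : ℤ[X][X]) := by
  refine ⟨by simp, fun j => ?_⟩
  rw [coeff_C]
  split_ifs <;> simp

private theorem bdCX : LD.Bd 1 0 (C X : ℤ[X][X]) := by
  refine ⟨by simp, fun j => ?_⟩
  rw [coeff_C]
  split_ifs
  · exact natDegree_X_le
  · simp

private theorem bdX : LD.Bd 0 1 (X : ℤ[X][X]) := by
  refine ⟨natDegree_X_le, fun j => ?_⟩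
  rw [coeff_X]
  split_ifs <;> simp

private theorem bd_dlZ (x y α β : ℤ) {m n : ℕ} {g : ℤ[X][X]} (hg : LD.Bd m n g) :
    LD.Bd (m + 2) (n + 1) (dlZ x y α β g) := by
  have hJ : (jI (C x) (C y) (C α) (C β) X 1 : ℤ[X]).natDegree ≤ 3 := by
    unfold jI
    simp only [mul_one, one_pow]
    compute_degree!
  have h1 : LD.Bd (m + 2) (n + 1)
      (g.sum fun j c => monomial j (jI (C x) (C y) (C α) (C β) X 1 * derivative c)) := by
    constructor
    · refine (natDegree_le_iff_coeff_eq_zero.2 fun N hN => ?_).trans (Nat.le_succ n)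
      rw [coeff_sumZ, coeff_eq_zero_of_natDegree_lt (lt_of_le_of_lt hg.1 hN), derivative_zero,
        mul_zero]
    · intro j
      rw [coeff_sumZ]
      rcases Nat.eq_zero_or_pos (g.coeff j).natDegree with h0 | h0
      · have : derivative (g.coeff j) = 0 := derivative_of_natDegree_zero h0
        rw [this, mul_zero, natDegree_zero]
        exact Nat.zero_le _
      · refine natDegree_mul_le.trans ?_
        have := natDegree_derivative_le (g.coeff j)
        have := hg.2 j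
        omega
  have h2 : LD.Bd 1 2 (54 * qI (C (C x)) (C (C y)) (C (C α)) (C (C β)) (C X) 1 X 1 :
      ℤ[X][X]) := by
    have hs : ∀ a b : ℤ, LD.Bd 1 0 (C (C a) * C X + C (C b) : ℤ[X][X]) := fun a b =>
      ((bdCX.C_mul a)).add ((bdC b).le (by omega) le_rfl)
    have e : (54 * qI (C (C x)) (C (C y)) (C (C α)) (C (C β)) (C X) 1 X 1 : ℤ[X][X]) =
        (C (C (54 * (12 * (9 * α ^ 2 * x ^ 2 + β ^ 2 * x + 6 * α * β * y)))) * C X +
          C (C (54 * (α * (2 * β ^ 3 - 54 * α ^ 2 * β * x - 108 * α ^ 3 * y))))) * (X * X) +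
        (C (C (54 * (24 * (6 * α * β * x ^ 2 + β ^ 2 * y + 9 * α ^ 2 * x * y)))) * C X +
          C (C (54 * (2 * β ^ 4 - 48 * α ^ 2 * β ^ 2 * x - 72 * α ^ 3 * β * y
            + 54 * α ^ 4 * x ^ 2)))) * X +
        (C (C (54 * (-216 * α * β * x * y - 432 * α ^ 2 * y ^ 2 + 108 * α ^ 2 * x ^ 3
          - 36 * β ^ 2 * x ^ 2))) * C X +
          C (C (54 * (6 * α * β ^ 3 * x - 90 * α ^ 3 * β * x ^ 2 - 216 * α ^ 4 * x * y
      + 12 * α ^ 2 * β ^ 2 * y)))) := by
      unfold qI qA qB qC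
      simp only [map_sub, map_add, map_neg, map_mul, map_pow, map_one, map_zero, map_ofNat]
      ring
    rw [e]
    refine (((hs _ _).mul (bdX.mul bdX)).le (by omega) (by omega)).add ?_ |>.add ?_
    · exact ((hs _ _).mul bdX).le (by omega) (by omega)
    · exact (hs _ _).le (by omega) (by omega)
  have h3 : LD.Bd m (n - 1) (derivative g) := by
    refine ⟨(natDegree_derivative_le g).trans (by have := hg.1; omega), fun j => ?_⟩
    rw [coeff_derivative]
    refine natDegree_mul_le.trans ?_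
    have h4 : ((j : ℤ[X]) + 1).natDegree = 0 := by
      rw [← Nat.cast_one, ← Nat.cast_add]
      exact natDegree_natCast _
    rw [h4]
    have := hg.2 (j + 1)
    omega
  rcases Nat.eq_zero_or_pos n with hn | hn
  · have h0 : derivative g = 0 := by
      refine derivative_of_natDegree_zero ?_
      have := hg.1
      omega
    unfold dlZ
    rw [h0, mul_zero, add_zero]
    exact h1
  · exact h1.add ((h2.mul h3).le (by omega) (by omega))

/-- (B1b) -/
theorem card_le_of_nab {x y α β : ℤ} {m n : ℕ} {g : ℤ[X][X]} (hg : LD.Irr m n g)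
    {ι : Type*} [Fintype ι] (P : LD.Pts ι) (hP : P.On m n g)
    (hF : ∀ i, Fq x y α β (P.s i) (P.t i) (P.u i) (P.v i) = 3)
    (hJ : ∀ i, jI x y α β (P.s i) (P.t i) ≠ 0)
    (hd : ∀ i j, i ≠ j → Hh x y α β (P.s i) (P.t i) (P.u i) (P.v i) ^ 3 *
      jI x y α β (P.s j) (P.t j) ≠ Hh x y α β (P.s j) (P.t j) (P.u j) (P.v j) ^ 3 *
      jI x y α β (P.s i) (P.t i))
    (hz : ∀ i, nab x y α β 1 0 m n g (P.s i) (P.t i) (P.u i) (P.v i) = 0) :
    Fintype.card ι ≤ n * (m + 2) + m * (n + 1) + n := by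
  by_contra hcon
  rw [not_le] at hcon
  have hbd : LD.Bd m n g := hg.ex.bd
  have ht : ∀ i, (P.t i : ℚ) ≠ 0 := fun i => by exact_mod_cast hP.t0 i
  have hv : ∀ i, (P.v i : ℚ) ≠ 0 := fun i => by exact_mod_cast hP.v0 i
  -- the affine points
  have hg0 : ∀ i, G1.ev ((P.s i : ℚ) / P.t i) ((P.u i : ℚ) / P.v i) (gQ g) = 0 := by
    intro i
    have h1 := LD.ev_div (k := ℚ) hbd (P.s i : ℚ) (P.t i) (P.u i) (P.v i) (ht i) (hv i)
    have h2 : LD.ev m n g (P.s i : ℚ) (P.t i) (P.u i) (P.v i) = 0 := by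
      have h3 := LD.ev_map (R := ℤ) (algebraMap ℤ ℚ).toIntAlgHom m n g (P.s i) (P.t i) (P.u i)
        (P.v i)
      rw [hP.zero i, map_zero] at h3
      exact h3
    rw [h2] at h1
    rw [ev_gQ]
    have h4 : ((P.t i : ℚ)) ^ m * (P.v i : ℚ) ^ n ≠ 0 :=
      mul_ne_zero (pow_ne_zero _ (ht i)) (pow_ne_zero _ (hv i))
    rcases mul_eq_zero.1 h1.symm with h5 | h5
    · exact absurd h5 h4
    · exact h5
  have hdl : ∀ i, G1.ev ((P.s i : ℚ) / P.t i) ((P.u i : ℚ) / P.v i)
      (gQ (dlZ x y α β g)) = 0 := by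
    intro i
    have h1 := nab_affine x y α β hbd (P.s i) (P.t i) (P.u i) (P.v i) (hP.t0 i) (hP.v0 i)
    rw [hz i, hg0 i, mul_zero, sub_zero, Int.cast_zero] at h1
    rw [gQ_dlZ]
    have h4 : ((P.t i : ℚ)) ^ (m + 2) * (P.v i : ℚ) ^ n ≠ 0 :=
      mul_ne_zero (pow_ne_zero _ (ht i)) (pow_ne_zero _ (hv i))
    rcases mul_eq_zero.1 h1.symm with h5 | h5
    · exact absurd h5 h4
    · exact h5
  have hdvd : g ∣ dlZ x y α β g := by
    refine LD.bez hg hP (a := m + 2) (b := n + 1) (by omega) (bd_dlZ x y α β hbd) fun i => ?_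
    have h1 := LD.ev_div (k := ℚ) (bd_dlZ x y α β hbd) (P.s i : ℚ) (P.t i) (P.u i) (P.v i)
      (ht i) (hv i)
    rw [← ev_gQ, hdl i, mul_zero] at h1
    have h3 := LD.ev_map (R := ℤ) (algebraMap ℤ ℚ).toIntAlgHom (m + 2) (n + 1)
      (dlZ x y α β g) (P.s i) (P.t i) (P.u i) (P.v i)
    have h4 : ((LD.ev (m + 2) (n + 1) (dlZ x y α β g) (P.s i) (P.t i) (P.u i) (P.v i) : ℤ) :
        ℚ) = 0 := h3.symm.trans h1
    exact_mod_cast h4
  have hdvd' : gQ g ∣ G1.dl (Pp (x : ℚ) y α β) (Bb (x : ℚ) y α β) (gQ g) := by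
    obtain ⟨q, hq⟩ := hdvd
    refine ⟨gQ q, ?_⟩
    rw [← gQ_dlZ, hq]
    unfold gQ
    rw [Polynomial.map_mul]
  have hit : ∀ l, gQ g ∣ (G1.dl (Pp (x : ℚ) y α β) (Bb (x : ℚ) y α β))^[l] (gQ g) := by
    intro l
    induction l with
    | zero => exact dvd_rfl
    | succ l ih =>
      rw [Function.iterate_succ_apply']
      obtain ⟨q, hq⟩ := ih
      rw [hq, ← G1.dD_apply, Derivation.leibniz, smul_eq_mul, smul_eq_mul, G1.dD_apply]
      exact dvd_add (Dvd.intro _ rfl) (Dvd.dvd.mul_left hdvd' q)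
  have hne : gQ g ≠ 0 := by
    intro h0
    have h1 : g = 0 := by
      refine Polynomial.map_injective _ ?_ (h0.trans (Polynomial.map_zero _).symm)
      exact Polynomial.map_injective _ Int.cast_injective
    exact hg.irr.ne_zero h1
  have hcard := G1.exc_le (Pp (x : ℚ) y α β) (Bb (x : ℚ) y α β) (Ph1 (x : ℚ) y α β)
    (Ph2 (x : ℚ) y α β) (Lm (x : ℚ) y α β) (flat1 _ _ _ _) (flat2 _ _ _ _)
    (Finset.univ : Finset ι) (fun i => (P.s i : ℚ) / P.t i) (fun i => (P.u i : ℚ) / P.v i)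
    ?_ ?_ (gQ g) hne ?_
  · have h1 : (gQ g).natDegree ≤ n := natDegree_map_le.trans hbd.1
    rw [Finset.card_univ] at hcard
    omega
  · intro i _
    rw [eval_Pp]
    have h1 := jI_hom (x : ℚ) y α β (P.s i) (P.t i) (ht i)
    have h2 : jI (x : ℚ) y α β (P.s i) (P.t i) ≠ 0 := by
      have h := map_jI (Int.castRingHom ℚ) x y α β (P.s i) (P.t i)
      simp only [Int.coe_castRingHom] at h
      rw [← h]
      exact_mod_cast hJ i
    intro h3
    rw [h3, mul_zero] at h1
    exact h2 h1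
  · intro i _ j _ hij
    rw [ev_Ph1, ev_Ph1, ev_Ph2, ev_Ph2]
    have key : ∀ i, Hh (x : ℚ) y α β ((P.s i : ℚ) / P.t i) 1 ((P.u i : ℚ) / P.v i) 1 =
        ((Hh x y α β (P.s i) (P.t i) (P.u i) (P.v i) : ℤ) : ℚ) /
          ((P.t i : ℚ) ^ 2 * (P.v i : ℚ) ^ 4) := by
      intro i
      have h1 := Hh_hom (x : ℚ) y α β (P.s i) (P.t i) (P.u i) (P.v i) (ht i) (hv i)
      have h2 : ((Hh x y α β (P.s i) (P.t i) (P.u i) (P.v i) : ℤ) : ℚ) =
          Hh (x : ℚ) y α β (P.s i) (P.t i) (P.u i) (P.v i) := by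
        unfold Hh
        push_cast
        ring
      rw [h2, h1]
      have := ht i
      have := hv i
      field_simp
    have keyF : ∀ i, Fq (x : ℚ) y α β ((P.s i : ℚ) / P.t i) 1 ((P.u i : ℚ) / P.v i) 1 =
        3 / ((P.t i : ℚ) * (P.v i : ℚ) ^ 4) := by
      intro i
      have h1 := Fq_hom (x : ℚ) y α β (P.s i) (P.t i) (P.u i) (P.v i) (ht i) (hv i)
      have h2 : ((Fq x y α β (P.s i) (P.t i) (P.u i) (P.v i) : ℤ) : ℚ) =
          Fq (x : ℚ) y α β (P.s i) (P.t i) (P.u i) (P.v i) := by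
        unfold Fq
        push_cast
        ring
      rw [← h2, hF i] at h1
      have := ht i
      have := hv i
      rw [eq_div_iff (by positivity)]
      push_cast at h1
      linarith
    have keyJ : ∀ i, jI (x : ℚ) y α β ((P.s i : ℚ) / P.t i) 1 =
        ((jI x y α β (P.s i) (P.t i) : ℤ) : ℚ) / (P.t i : ℚ) ^ 3 := by
      intro i
      have h1 := jI_hom (x : ℚ) y α β (P.s i) (P.t i) (ht i)
      have h2 : ((jI x y α β (P.s i) (P.t i) : ℤ) : ℚ) =
          jI (x : ℚ) y α β (P.s i) (P.t i) := by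
        unfold jI
        push_cast
        ring
      rw [h2, h1]
      have := ht i
      field_simp
    rw [key, key, keyF, keyF, keyJ, keyJ]
    intro heq
    have ti := ht i
    have tj := ht j
    have vi := hv i
    have vj := hv j
    have h5 : ((Hh x y α β (P.s i) (P.t i) (P.u i) (P.v i) ^ 3 *
        jI x y α β (P.s j) (P.t j) : ℤ) : ℚ) = ((Hh x y α β (P.s j) (P.t j) (P.u j)
          (P.v j) ^ 3 * jI x y α β (P.s i) (P.t i) : ℤ) : ℚ) := by
      push_cast
      field_simp at heq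
      linarith
    exact hd i j hij (by exact_mod_cast h5)
  · intro i _ l
    obtain ⟨q, hq⟩ := hit l
    rw [hq, ← G1.evH_apply, map_mul, G1.evH_apply, hg0 i, zero_mul]

end Pool.Agent.Work.MP_f2148a_nt.M56.G3
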